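import Pool.Agent.K3h56.E2.Stm

/-!
# Rubin's conjecture for groups of exponent two, explicit form: statements of the parts
-/

set_option autoImplicit false

open NumberField IsDedekindDomain Filter Topology

noncomputable section

namespace Pool.Agent.K3h56.E2

open Pool.Agent.K3h30.RS

section defs

variable (K : Type) [Field K] [NumberField K]

/-- The group of the elements of `K^*` which are units outside `A`. -/
def SU (A : Set (HeightOneSpectrum (𝓞 K))) : Subgroup Kˣ where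
  carrier := {x | ∀ w : HeightOneSpectrum (𝓞 K), w ∉ A → w.valuation K (x : K) = 1}
  mul_mem' := by
    intro x y hx hy w hw
    rw [Units.val_mul, map_mul, hx w hw, hy w hw, one_mul]
  one_mem' := fun w _ => by rw [Units.val_one, map_one]
  inv_mem' := by
    intro x hx w hw
    rw [Units.val_inv_eq_inv_val, map_inv₀, hx w hw, inv_one]

/-- The group of the roots of unity of `K`. -/
def mu : Subgroup Kˣ := CommGroup.torsion Kˣ

variable {K}

/-- The class of a prime ideal. -/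
def cls (w : HeightOneSpectrum (𝓞 K)) : ClassGroup (𝓞 K) :=
  ClassGroup.mk0 ⟨w.asIdeal, mem_nonZeroDivisors_of_ne_zero w.ne_bot⟩

/-- The subgroup of the class group generated by the classes of the prime ideals in `A`. -/
def CA (A : Set (HeightOneSpectrum (𝓞 K))) : Subgroup (ClassGroup (𝓞 K)) :=
  Subgroup.closure (cls '' A)

/-- The action of an automorphism on `K^*`. -/
def actK {F : Type} [Field F] [Algebra F K] (τ : K ≃ₐ[F] K) : Kˣ →* Kˣ :=
  Units.map ((τ : K →+* K) : K →* K)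

/-- The elements `x` of `K^*` with `τ x = x⁻¹`. -/
def minus {F : Type} [Field F] [Algebra F K] (τ : K ≃ₐ[F] K) : Subgroup Kˣ where
  carrier := {x | actK τ x = x⁻¹}
  mul_mem' := by
    intro x y hx hy
    have hx' : actK τ x = x⁻¹ := hx
    have hy' : actK τ y = y⁻¹ := hy
    show actK τ (x * y) = (x * y)⁻¹
    rw [map_mul, hx', hy', mul_inv]
  one_mem' := by
    show actK τ 1 = 1⁻¹
    rw [map_one, inv_one]
  inv_mem' := by
    intro x hx
    have hx' : actK τ x = x⁻¹ := hx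
    show actK τ x⁻¹ = x⁻¹⁻¹
    rw [map_inv, hx']

/-- The place `p` of `F` lies below the place `w` of `K`. -/
def Below {F : Type} [Field F] [NumberField F] [Algebra F K] : Place K → Place F → Prop
  | Sum.inl w, Sum.inl v => w.comap (algebraMap F K) = v
  | Sum.inr P, Sum.inr v => Above {v} P
  | _, _ => False

/-- The logarithmic matrix of a family of elements at a family of places. -/
def logM {ι : Type} (u : ι → Place K) (x : ι → Kˣ) : Matrix ι ι ℝ :=
  Matrix.of fun a b => Real.log (av (u a) ((x b : Kˣ) : K))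

end defs

/-- `A` is the set of the prime ideals of `K` over `S`. -/
def Over {F K : Type} [Field F] [NumberField F] [Field K] [NumberField K] [Algebra F K]
    (S : Finset (HeightOneSpectrum (𝓞 F))) (A : Finset (HeightOneSpectrum (𝓞 K))) : Prop :=
  ∀ P : HeightOneSpectrum (𝓞 K), P ∈ A ↔ ∃ v ∈ S, Above {v} P

/-- SIND. The index theorem for `A`-units: all places of `∞ ∪ A` but one are in the family. -/
def S_SIND : Prop :=
  ∀ (K : Type) [Field K] [NumberField K] (A : Finset (HeightOneSpectrum (𝓞 K))) (ι : Type)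
    [Fintype ι] [DecidableEq ι] (u : ι → Place K), Function.Injective u →
    (∀ a w, u a = Sum.inr w → w ∈ A) →
    Fintype.card ι + 1 = Fintype.card (InfinitePlace K) + A.card →
    ∀ x : ι → Kˣ, (∀ b, x b ∈ SU K A) →
    |(logM u x).det| = ((Subgroup.closure (Set.range x) ⊔ mu K).relIndex (SU K A) : ℝ) *
      (Units.regulator K * (Nat.card (CA (A : Set (HeightOneSpectrum (𝓞 K)))) : ℝ) *
        ∏ P ∈ A, Real.log (Ideal.absNorm P.asIdeal))

/-- FUND. Fundamental `A`-units. -/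
def S_FUND : Prop :=
  ∀ (K : Type) [Field K] [NumberField K] (A : Finset (HeightOneSpectrum (𝓞 K))) (ι : Type)
    [Fintype ι] [DecidableEq ι],
    Fintype.card ι + 1 = Fintype.card (InfinitePlace K) + A.card →
    ∃ x : ι → Kˣ, Subgroup.closure (Set.range x) ⊔ mu K = SU K A

/-- ZETA0X. The leading term of the zeta function at `s = 0`, exact form. -/
def S_ZETA0X : Prop :=
  ∀ (K : Type) [Field K] [NumberField K], ∃ Z : ℂ → ℂ, IsCont K Z ∧ ∃ q : ℝ,
    |q| = classNumber K / Units.torsionOrder K ∧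
    Tendsto (fun s : ℂ => (s ^ (Fintype.card (InfinitePlace K) - 1))⁻¹ * Z s) (𝓝[≠] 0)
      (𝓝 ((q * Units.regulator K : ℝ) : ℂ))

/-- LIMX. The leading term of `L_S(χ, s)` at `s = 0`, `χ ≠ 1`, exact form. -/
def S_LIMX : Prop :=
  S_ZETA0X → S_ZPROD → S_LOC →
  ∀ (F K : Type) [Field F] [NumberField F] [Field K] [NumberField K] [Algebra F K]
    (τ : K ≃ₐ[F] K), Quad F K τ → ∀ (S : Finset (HeightOneSpectrum (𝓞 F)))
    (A : Finset (HeightOneSpectrum (𝓞 K))), Over S A → ∀ (L : ℂ → ℂ),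
    DifferentiableOn ℂ L {1}ᶜ →
    (∀ s : ℂ, 1 < s.re → HasProd (fun v : {v : HeightOneSpectrum (𝓞 F) // v ∉ S} =>
      (1 - ((loc K (v : HeightOneSpectrum (𝓞 F)) : ℤ) : ℂ) *
        (Ideal.absNorm (v : HeightOneSpectrum (𝓞 F)).asIdeal : ℂ) ^ (-s))⁻¹) (L s)) →
    Fintype.card (InfinitePlace F) ≤ Fintype.card (InfinitePlace K) →
    Fintype.card (InfinitePlace F) + S.card ≤ Fintype.card (InfinitePlace K) + A.card ∧
    ∃ q : ℝ, Tendsto (fun s : ℂ => (s ^ ((Fintype.card (InfinitePlace K) + A.card) -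
        (Fintype.card (InfinitePlace F) + S.card)))⁻¹ * L s) (𝓝[≠] 0) (𝓝 (q : ℂ)) ∧
      |q| * (Units.torsionOrder K * classNumber F * Units.regulator F *
        ∏ v ∈ S, Real.log (Ideal.absNorm v.asIdeal)) =
      classNumber K * Units.torsionOrder F * Units.regulator K *
        ∏ P ∈ A, Real.log (Ideal.absNorm P.asIdeal)

/-- LIM1X. The leading term of `ζ_{F,S}(s)` at `s = 0`, exact form. -/
def S_LIM1X : Prop :=
  S_ZETA0X →
  ∀ (F : Type) [Field F] [NumberField F] (S : Finset (HeightOneSpectrum (𝓞 F))) (L : ℂ → ℂ),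
    DifferentiableOn ℂ L {1}ᶜ →
    (∀ s : ℂ, 1 < s.re → HasProd (fun v : {v : HeightOneSpectrum (𝓞 F) // v ∉ S} =>
      (1 - (Ideal.absNorm (v : HeightOneSpectrum (𝓞 F)).asIdeal : ℂ) ^ (-s))⁻¹) (L s)) →
    ∃ q : ℝ, Tendsto (fun s : ℂ => (s ^ ((Fintype.card (InfinitePlace F) + S.card) - 1))⁻¹ * L s)
      (𝓝[≠] 0) (𝓝 (q : ℂ)) ∧
      |q| * Units.torsionOrder F = classNumber F * Units.regulator F *
        ∏ v ∈ S, Real.log (Ideal.absNorm v.asIdeal)

/-- FACT. The determinant of a family of elements of `F^*` and elements with `τ x = x⁻¹`. -/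
def S_FACT : Prop :=
  ∀ (F K : Type) [Field F] [NumberField F] [Field K] [NumberField K] [Algebra F K]
    (τ : K ≃ₐ[F] K), Quad F K τ → ∀ (S : Finset (HeightOneSpectrum (𝓞 F)))
    (A : Finset (HeightOneSpectrum (𝓞 K))), Over S A →
    ∀ (κ ι : Type) [Fintype κ] [DecidableEq κ] [Fintype ι] [DecidableEq ι]
    (u : ι → Place K) (p : ι → Place F), (∀ a, Below (u a) (p a)) → Function.Injective p →
    (∀ a, ∃ z : K, av (u a) (τ z) ≠ av (u a) z) → (∀ a w, u a = Sum.inr w → w ∈ A) →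
    Fintype.card κ + 1 = Fintype.card (InfinitePlace F) + S.card →
    Fintype.card ι + (Fintype.card (InfinitePlace F) + S.card) =
      Fintype.card (InfinitePlace K) + A.card →
    ∀ (y : κ → Fˣ) (x : ι → Kˣ), (∀ b, y b ∈ SU F S) → (∀ b, x b ∈ SU K A) →
    (∀ b, x b ∈ minus τ) →
    ∃ (U : κ ⊕ ι → Place K) (V : κ → Place F), Function.Injective U ∧ Function.Injective V ∧
      (∀ a w, U a = Sum.inr w → w ∈ A) ∧ (∀ a w, V a = Sum.inr w → w ∈ S) ∧
      |(logM U (Sum.elim (fun b => Units.map (algebraMap F K : F →* K) (y b)) x)).det| =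
        2 ^ Fintype.card κ * |(logM V y).det| * |(logM u x).det|

/-- GT. Indices in a group with an involution. -/
def S_GT : Prop :=
  ∀ (M : Type) [CommGroup M] (τ : M →* M), (∀ x, τ (τ x) = x) → ∀ (U μ P N : Subgroup M),
    (∀ x ∈ U, τ x ∈ U) → μ ≤ U → Finite μ → (∀ x ∈ U, (∃ n : ℕ, 0 < n ∧ x ^ n = 1) → x ∈ μ) →
    (∀ x, x ∈ P ↔ x ∈ U ∧ τ x = x) → (∀ x, x ∈ N ↔ x ∈ U ∧ τ x = x⁻¹) →
    ∀ e : M, e ∈ μ → e ≠ 1 → e * e = 1 → τ e = e → (∀ x ∈ μ, x * x = 1 → x = 1 ∨ x = e) →
    ∀ r : ℕ, (N.map (powMonoidHom 2)).relIndex N = 2 ^ (r + 1) →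
    ∀ Y X : Subgroup M, Y ≤ P → X ≤ N → Y ⊔ (μ ⊓ P) = P →
    (Y ⊔ X ⊔ μ).relIndex U * Nat.card μ * (U.map ((MonoidHom.id M) / τ)).relIndex N =
      (X ⊔ (μ ⊓ N)).relIndex N * Nat.card (μ ⊓ P : Subgroup M) * Nat.card (μ ⊓ N : Subgroup M) *
        2 ^ r

/-- CLS. The capitulation kernel. -/
def S_CLS : Prop :=
  ∀ (F K : Type) [Field F] [NumberField F] [Field K] [NumberField K] [Algebra F K]
    (τ : K ≃ₐ[F] K), Quad F K τ → ∀ (S : Finset (HeightOneSpectrum (𝓞 F)))
    (A : Finset (HeightOneSpectrum (𝓞 K))), Over S A →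
    (∀ v : HeightOneSpectrum (𝓞 F), v ∉ S →
      Squarefree (v.asIdeal.map (algebraMap (𝓞 F) (𝓞 K)))) →
    (CA (S : Set (HeightOneSpectrum (𝓞 F)))).index ∣
      (CA (A : Set (HeightOneSpectrum (𝓞 K)))).index *
        ((SU K A).map ((MonoidHom.id Kˣ) / actK τ)).relIndex (SU K A ⊓ minus τ)

/-- RANK. The rank of the group of the `A`-units with `τ x = x⁻¹`. -/
def S_RANK : Prop :=
  ∀ (F K : Type) [Field F] [NumberField F] [Field K] [NumberField K] [Algebra F K]
    (τ : K ≃ₐ[F] K), Quad F K τ → ∀ (S : Finset (HeightOneSpectrum (𝓞 F)))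
    (A : Finset (HeightOneSpectrum (𝓞 K))), Over S A → ∀ r : ℕ,
    r + (Fintype.card (InfinitePlace F) + S.card) = Fintype.card (InfinitePlace K) + A.card →
    ((SU K A ⊓ minus τ).map (powMonoidHom 2)).relIndex (SU K A ⊓ minus τ) = 2 ^ (r + 1)

/-- RANK1. The rank of the group of the `S`-units. -/
def S_RANK1 : Prop :=
  ∀ (F : Type) [Field F] [NumberField F] (S : Finset (HeightOneSpectrum (𝓞 F))),
    ((SU F S).map (powMonoidHom 2)).relIndex (SU F S) =
      2 ^ (Fintype.card (InfinitePlace F) + S.card)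

/-- MINUS. The leading term of `L_S(χ, s)`, `χ ≠ 1`, and the determinants of families in the
minus part. -/
def S_MINUS : Prop :=
  ∀ (F K : Type) [Field F] [NumberField F] [Field K] [NumberField K] [Algebra F K]
    (τ : K ≃ₐ[F] K), Quad F K τ → ∀ (S : Finset (HeightOneSpectrum (𝓞 F)))
    (A : Finset (HeightOneSpectrum (𝓞 K))), Over S A →
    (∀ v : HeightOneSpectrum (𝓞 F), v ∉ S →
      Squarefree (v.asIdeal.map (algebraMap (𝓞 F) (𝓞 K)))) →
    ∀ (r : ℕ) (u : Fin r → Place K) (p : Fin r → Place F), (∀ a, Below (u a) (p a)) →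
    Function.Injective p → (∀ a, ∃ z : K, av (u a) (τ z) ≠ av (u a) z) →
    (∀ a w, u a = Sum.inr w → w ∈ A) →
    r + (Fintype.card (InfinitePlace F) + S.card) = Fintype.card (InfinitePlace K) + A.card →
    r + 1 ≤ Fintype.card (InfinitePlace F) + S.card →
    ∀ (L : ℂ → ℂ), DifferentiableOn ℂ L {1}ᶜ →
    (∀ s : ℂ, 1 < s.re → HasProd (fun v : {v : HeightOneSpectrum (𝓞 F) // v ∉ S} =>
      (1 - ((loc K (v : HeightOneSpectrum (𝓞 F)) : ℤ) : ℂ) *
        (Ideal.absNorm (v : HeightOneSpectrum (𝓞 F)).asIdeal : ℂ) ^ (-s))⁻¹) (L s)) →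
    ∃ (q : ℝ) (a : ℕ), Tendsto (fun s : ℂ => (s ^ r)⁻¹ * L s) (𝓝[≠] 0) (𝓝 (q : ℂ)) ∧
      ∀ x : Fin r → Kˣ, (∀ b, x b ∈ SU K A ⊓ minus τ) →
        |q| * Nat.card (mu K ⊓ minus τ : Subgroup Kˣ) *
          (Subgroup.closure (Set.range x) ⊔ (mu K ⊓ minus τ)).relIndex (SU K A ⊓ minus τ) =
        a * 2 ^ (Fintype.card (InfinitePlace F) + S.card - (r + 1)) * |(logM u x).det|

section final

variable {F H G : Type} [Field F] [NumberField F] [Field H] [NumberField H] [Algebra F H]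
  [CommGroup G] [Finite G] [MulSemiringAction G H]

/-- The elements `x` of `V ⊆ H^*` with `γ x = x ^ (χ (γ))`, `χ (γ) = ± 1`. -/
def part (V : Subgroup Hˣ) (χ : G →* ℂˣ) : Subgroup Hˣ where
  carrier := {x | x ∈ V ∧ (∀ g : G, χ g = 1 → act g x = x) ∧ ∀ g : G, χ g ≠ 1 → act g x = x⁻¹}
  mul_mem' := by
    rintro x y ⟨h1, h2, h3⟩ ⟨h1', h2', h3'⟩
    refine ⟨V.mul_mem h1 h1', fun g hg => ?_, fun g hg => ?_⟩
    · have : act g (x * y) = act g x * act g y := map_mul _ _ _
      rw [this, h2 g hg, h2' g hg]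
    · have : act g (x * y) = act g x * act g y := map_mul _ _ _
      rw [this, h3 g hg, h3' g hg, mul_inv]
  one_mem' := by
    refine ⟨V.one_mem, fun g _ => ?_, fun g _ => ?_⟩
    · exact map_one _
    · rw [inv_one]
      exact map_one _
  inv_mem' := by
    rintro x ⟨h1, h2, h3⟩
    refine ⟨V.inv_mem h1, fun g hg => ?_, fun g hg => ?_⟩
    · have : act g x⁻¹ = (act g x)⁻¹ := map_inv _ _
      rw [this, h2 g hg]
    · have : act g x⁻¹ = (act g x)⁻¹ := map_inv _ _
      rw [this, h3 g hg]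

/-- The number of the prime ideals in `T` which do not divide `2`. -/
def oddCard (T : Finset (HeightOneSpectrum (𝓞 F))) : ℕ :=
  (T.filter fun v => Odd (Ideal.absNorm v.asIdeal)).card

/-- `χ (g)` as an integer, for a character with values `± 1`. -/
def sgn (χ : G →* ℂˣ) (g : G) : ℤ := open Classical in if χ g = 1 then 1 else -1

end final

/-- TPART. The index of the group `U_{S,T}` in the group of the `S`-units, `χ`-parts. -/
def S_TPART : Prop :=
  ∀ (F H G : Type) [Field F] [NumberField F] [Field H] [NumberField H] [Algebra F H]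
    [CommGroup G] [Finite G] [MulSemiringAction G H] [IsGaloisGroup G F H]
    (D : RubinData F H G) (χ : G →* ℂˣ), (∀ g : G, g * g = 1) →
    ∀ (T : Finset (HeightOneSpectrum (𝓞 F))), Disjoint D.S T → ∀ r : ℕ,
    ((part (D.U ∅) χ).map (powMonoidHom 2)).relIndex (part (D.U ∅) χ) = 2 ^ (r + 1) →
    ∃ b : ℕ, ((part (D.U T) χ).relIndex (part (D.U ∅) χ) : ℤ) * b =
        ∏ v ∈ T, ((Ideal.absNorm v.asIdeal : ℤ) - sgn χ (D.σ v)) ∧
      2 ^ (oddCard T - (r + 1)) ∣ b

/-- KH. The `χ`-part of the `S`-units of `H` is the minus part of the `A`-units of `K`. -/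
def S_KH : Prop :=
  ∀ (F H G K : Type) [Field F] [NumberField F] [Field H] [NumberField H] [Algebra F H]
    [CommGroup G] [Finite G] [MulSemiringAction G H] [IsGaloisGroup G F H] [Field K]
    [NumberField K] [Algebra F K] [Algebra K H] (τ : K ≃ₐ[F] K) (χ : G →* ℂˣ),
    Dict F H G K τ χ → ∀ (D : RubinData F H G) (A : Finset (HeightOneSpectrum (𝓞 K))),
    Over D.S A →
    (SU K A ⊓ minus τ).map (Units.map (algebraMap K H : K →* H)) = part (D.U ∅) χ ∧
    (mu K ⊓ minus τ).map (Units.map (algebraMap K H : K →* H)) = part (mu H) χ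

/-- KH1. The same for the trivial character. -/
def S_KH1 : Prop :=
  ∀ (F H G : Type) [Field F] [NumberField F] [Field H] [NumberField H] [Algebra F H]
    [CommGroup G] [Finite G] [MulSemiringAction G H] [IsGaloisGroup G F H] (D : RubinData F H G),
    (SU F D.S).map (Units.map (algebraMap F H : F →* H)) = part (D.U ∅) (1 : G →* ℂˣ) ∧
    (mu F).map (Units.map (algebraMap F H : F →* H)) = part (mu H) (1 : G →* ℂˣ)

/-- AVK. Absolute values at the completely split places. -/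
def S_AVK : Prop :=
  ∀ (F H G K : Type) [Field F] [NumberField F] [Field H] [NumberField H] [Algebra F H]
    [CommGroup G] [Finite G] [MulSemiringAction G H] [IsGaloisGroup G F H] [Field K]
    [NumberField K] [Algebra F K] [Algebra K H] [IsScalarTower F K H] (w : Place H),
    (∀ γ : G, Fixes w γ → γ = 1) → ∃ (u : Place K) (p : Place F), Below w u ∧ Below u p ∧
      Below w p ∧ ∀ x : K, av w (algebraMap K H x) = av u x

/-- BASIS. A basis of the `χ`-part of `U_{S,T}`. -/
def S_BASIS : Prop :=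
  ∀ (F H G : Type) [Field F] [NumberField F] [Field H] [NumberField H] [Algebra F H]
    [CommGroup G] [Finite G] [MulSemiringAction G H] [IsGaloisGroup G F H]
    (D : RubinData F H G) (χ : G →* ℂˣ), (∀ g : G, g * g = 1) →
    ∀ (T : Finset (HeightOneSpectrum (𝓞 F))), D.Allowed T → ∀ r : ℕ,
    ((part (D.U ∅) χ).map (powMonoidHom 2)).relIndex (part (D.U ∅) χ) = 2 ^ (r + 1) →
    ∃ x : Fin r → Hˣ, Subgroup.closure (Set.range x) = part (D.U T) χ ∧
      (Subgroup.closure (Set.range x) ⊔ part (mu H) χ).relIndex (part (D.U ∅) χ) *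
        Nat.card (part (mu H) χ) = (part (D.U T) χ).relIndex (part (D.U ∅) χ)

/-- The statement for one character, explicit form. -/
def CharRubin {F H G : Type} [Field F] [NumberField F] [Field H] [NumberField H] [Algebra F H]
    [CommGroup G] [Finite G] [MulSemiringAction G H] (D : RubinData F H G)
    (T : Finset (HeightOneSpectrum (𝓞 F))) (χ : G →* ℂˣ) : Prop :=
  (¬ D.Active χ → Tendsto (fun s : ℂ => (s ^ D.r)⁻¹ * D.L χ s) (𝓝[≠] 0) (𝓝 0)) ∧
  (D.Active χ → ∃ (x : Fin D.r → Hˣ) (q : ℝ) (n : ℤ),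
    Subgroup.closure (Set.range x) = part (D.U T) χ ∧
    Tendsto (fun s : ℂ => (s ^ D.r)⁻¹ * D.L χ s) (𝓝[≠] 0) (𝓝 (q : ℂ)) ∧
    q * ∏ v ∈ T, ((Ideal.absNorm v.asIdeal : ℝ) - (sgn χ (D.σ v) : ℝ)) =
      n * (Nat.card G : ℝ) * Matrix.det (Matrix.of fun a b : Fin D.r =>
        Real.log (av (D.w a) ((x b : Hˣ) : H))))

/-- ASM2. Rubin's conjecture from the statements for the characters. -/
def S_ASM2 : Prop :=
  ∀ (F H G : Type) [Field F] [NumberField F] [Field H] [NumberField H] [Algebra F H]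
    [CommGroup G] [Finite G] [MulSemiringAction G H] [IsGaloisGroup G F H]
    (D : RubinData F H G) (T : Finset (HeightOneSpectrum (𝓞 F))), D.Allowed T →
    (∀ g : G, g * g = 1) → (∀ χ : G →* ℂˣ, CharRubin D T χ) → D.Rubin T

/-- CHI2. The statement for `χ ≠ 1`. -/
def S_CHI2 : Prop :=
  ∀ (F H G : Type) [Field F] [NumberField F] [Field H] [NumberField H] [Algebra F H]
    [CommGroup G] [Finite G] [MulSemiringAction G H] [IsGaloisGroup G F H]
    (D : RubinData F H G) (T : Finset (HeightOneSpectrum (𝓞 F))), D.Allowed T →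
    (∀ g : G, g * g = 1) →
    Nat.card G ∣ 2 ^ ((Fintype.card (InfinitePlace F) + D.S.card - (D.r + 1)) +
      (oddCard T - (D.r + 1))) → ∀ χ : G →* ℂˣ, χ ≠ 1 → CharRubin D T χ

/-- ONE2. The statement for `χ = 1`. -/
def S_ONE2 : Prop :=
  ∀ (F H G : Type) [Field F] [NumberField F] [Field H] [NumberField H] [Algebra F H]
    [CommGroup G] [Finite G] [MulSemiringAction G H] [IsGaloisGroup G F H]
    (D : RubinData F H G) (T : Finset (HeightOneSpectrum (𝓞 F))), D.Allowed T →
    (∀ g : G, g * g = 1) →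
    Nat.card G ∣ 2 ^ ((Fintype.card (InfinitePlace F) + D.S.card - (D.r + 1)) +
      (oddCard T - (D.r + 1))) → CharRubin D T 1

end Pool.Agent.K3h56.E2
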