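import Pool.Agent.K3h30.RS.Defs

/-!
# Stark's conjecture over `ℚ` for groups of exponent two: statements of the parts

`χ` is a character of `G` with values `± 1`; if `χ ≠ 1`, `K` is the quadratic extension of `F` in `H`
which belongs to the kernel of `χ`, and `τ` generates `Gal (K / F)`.
-/

set_option autoImplicit false

open NumberField IsDedekindDomain Filter Topology

noncomputable section

namespace Pool.Agent.K3h56.E2

open Pool.Agent.K3h30.RS

/-- `Z` is the continuation of the zeta function of `K` to all `s ≠ 1`. -/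
def IsCont (K : Type) [Field K] [NumberField K] (Z : ℂ → ℂ) : Prop :=
  (∀ s : ℂ, s ≠ 1 → DifferentiableAt ℂ Z s) ∧ ∀ s : ℂ, 1 < s.re → Z s = dedekindZeta K s

/-- ZETA0. The leading term of the zeta function at `s = 0`. -/
def S_ZETA0 : Prop :=
  ∀ (K : Type) [Field K] [NumberField K], ∃ Z : ℂ → ℂ, IsCont K Z ∧ ∃ q : ℚ, q ≠ 0 ∧
    Tendsto (fun s : ℂ => (s ^ (Fintype.card (InfinitePlace K) - 1))⁻¹ * Z s) (𝓝[≠] 0)
      (𝓝 ((q : ℂ) * ((Units.regulator K : ℝ) : ℂ)))

/-- `K / F` is quadratic and `τ` is the nontrivial automorphism. -/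
structure Quad (F K : Type) [Field F] [NumberField F] [Field K] [NumberField K] [Algebra F K]
    (τ : K ≃ₐ[F] K) : Prop where
  deg : Module.finrank F K = 2
  ne : τ ≠ AlgEquiv.refl

open Classical in
/-- `1`, `-1`, `0` if `v` is split, inert, ramified in the quadratic extension `K`. -/
def loc {F : Type} [Field F] [NumberField F] (K : Type) [Field K] [NumberField K] [Algebra F K]
    (v : HeightOneSpectrum (𝓞 F)) : ℤ :=
  if ∃ P P' : HeightOneSpectrum (𝓞 K), P ≠ P' ∧ Above {v} P ∧ Above {v} P' then 1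
  else if ∃ P : HeightOneSpectrum (𝓞 K), Above {v} P ∧
    Ideal.absNorm P.asIdeal = Ideal.absNorm v.asIdeal ^ 2 then -1 else 0

/-- LOC. The prime ideals of a quadratic extension over `v`. -/
def S_LOC : Prop :=
  ∀ (F K : Type) [Field F] [NumberField F] [Field K] [NumberField K] [Algebra F K]
    (τ : K ≃ₐ[F] K), Quad F K τ → ∀ v : HeightOneSpectrum (𝓞 F),
    (loc K v = 1 → ∃ P P' : HeightOneSpectrum (𝓞 K), P ≠ P' ∧
      (∀ Q : HeightOneSpectrum (𝓞 K), Above {v} Q ↔ Q = P ∨ Q = P') ∧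
      (∀ x : K, P'.valuation K x = P.valuation K (τ x)) ∧
      (v.asIdeal.map (algebraMap (𝓞 F) (𝓞 K)) = P.asIdeal * P'.asIdeal) ∧
      Ideal.absNorm P.asIdeal = Ideal.absNorm v.asIdeal ∧
      Ideal.absNorm P'.asIdeal = Ideal.absNorm v.asIdeal) ∧
    (loc K v ≠ 1 → ∃ P : HeightOneSpectrum (𝓞 K),
      (∀ Q : HeightOneSpectrum (𝓞 K), Above {v} Q ↔ Q = P) ∧
      (∀ x : K, P.valuation K x = P.valuation K (τ x)) ∧
      ((loc K v = -1 ∧ v.asIdeal.map (algebraMap (𝓞 F) (𝓞 K)) = P.asIdeal ∧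
          Ideal.absNorm P.asIdeal = Ideal.absNorm v.asIdeal ^ 2) ∨
        (loc K v = 0 ∧ v.asIdeal.map (algebraMap (𝓞 F) (𝓞 K)) = P.asIdeal ^ 2 ∧
          Ideal.absNorm P.asIdeal = Ideal.absNorm v.asIdeal)))

/-- ZPROD. `ζ_K / ζ_F` as an Euler product over the prime ideals of `F`. -/
def S_ZPROD : Prop :=
  ∀ (F K : Type) [Field F] [NumberField F] [Field K] [NumberField K] [Algebra F K]
    (τ : K ≃ₐ[F] K), Quad F K τ → ∀ s : ℂ, 1 < s.re →
    dedekindZeta F s ≠ 0 ∧
    HasProd (fun v : HeightOneSpectrum (𝓞 F) =>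
      (1 - ((loc K v : ℤ) : ℂ) * (Ideal.absNorm v.asIdeal : ℂ) ^ (-s))⁻¹)
      (dedekindZeta K s / dedekindZeta F s)

/-- LIM. The leading term of `L_S(χ, s)` at `s = 0`, `χ ≠ 1`. -/
def S_LIM : Prop :=
  S_ZETA0 → S_ZPROD →
  ∀ (F K : Type) [Field F] [NumberField F] [Field K] [NumberField K] [Algebra F K]
    (τ : K ≃ₐ[F] K), Quad F K τ → ∀ (S : Finset (HeightOneSpectrum (𝓞 F))) (L : ℂ → ℂ),
    DifferentiableOn ℂ L {1}ᶜ →
    (∀ s : ℂ, 1 < s.re → HasProd (fun v : {v : HeightOneSpectrum (𝓞 F) // v ∉ S} =>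
      (1 - ((loc K (v : HeightOneSpectrum (𝓞 F)) : ℤ) : ℂ) *
        (Ideal.absNorm (v : HeightOneSpectrum (𝓞 F)).asIdeal : ℂ) ^ (-s))⁻¹) (L s)) →
    Fintype.card (InfinitePlace F) ≤ Fintype.card (InfinitePlace K) →
    ∃ q : ℚ, Tendsto (fun s : ℂ => (s ^ ((Fintype.card (InfinitePlace K) -
        Fintype.card (InfinitePlace F)) + (S.filter fun v => loc K v = 1).card))⁻¹ * L s) (𝓝[≠] 0)
      (𝓝 ((q : ℂ) * ((Units.regulator K / Units.regulator F *
        ∏ v ∈ S.filter fun v => loc K v = 1, Real.log (Ideal.absNorm v.asIdeal) : ℝ) : ℂ)))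

/-- LIM1. The leading term of `ζ_{F,S}(s)` at `s = 0`. -/
def S_LIM1 : Prop :=
  S_ZETA0 →
  ∀ (F : Type) [Field F] [NumberField F] (S : Finset (HeightOneSpectrum (𝓞 F))) (L : ℂ → ℂ),
    DifferentiableOn ℂ L {1}ᶜ →
    (∀ s : ℂ, 1 < s.re → HasProd (fun v : {v : HeightOneSpectrum (𝓞 F) // v ∉ S} =>
      (1 - (Ideal.absNorm (v : HeightOneSpectrum (𝓞 F)).asIdeal : ℂ) ^ (-s))⁻¹) (L s)) →
    ∃ q : ℚ, Tendsto (fun s : ℂ => (s ^ ((Fintype.card (InfinitePlace F) - 1) + S.card))⁻¹ * L s)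
      (𝓝[≠] 0) (𝓝 ((q : ℂ) * ((Units.regulator F *
        ∏ v ∈ S, Real.log (Ideal.absNorm v.asIdeal) : ℝ) : ℂ)))

/-- REG. The quotient of the regulators of `K` and `F`. -/
def S_REG : Prop :=
  ∀ (F K : Type) [Field F] [NumberField F] [Field K] [NumberField K] [Algebra F K]
    (τ : K ≃ₐ[F] K), Quad F K τ → ∀ (ι : Type) [Fintype ι] [DecidableEq ι]
    (u : ι → InfinitePlace K), (∀ a, (u a).comap (τ : K →+* K) ≠ u a) →
    (∀ a b, (u a).comap (algebraMap F K) = (u b).comap (algebraMap F K) → a = b) →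
    Fintype.card ι + Fintype.card (InfinitePlace F) = Fintype.card (InfinitePlace K) →
    ∃ (ε : ι → (𝓞 K)ˣ) (q : ℚ), (∀ b, τ ((ε b : 𝓞 K) : K) = (((ε b : 𝓞 K) : K))⁻¹) ∧
      Units.regulator K / Units.regulator F = q * Matrix.det (Matrix.of fun a b : ι =>
        Real.log (u a ((ε b : 𝓞 K) : K) ^ (u a).mult))

/-- REG1. The regulator of `F` as a determinant, one infinite place `v` being omitted. -/
def S_REG1 : Prop :=
  ∀ (F : Type) [Field F] [NumberField F] (v : InfinitePlace F) (ι : Type) [Fintype ι]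
    [DecidableEq ι] (u : ι → InfinitePlace F), Function.Injective u → (∀ a, u a ≠ v) →
    Fintype.card ι + 1 = Fintype.card (InfinitePlace F) →
    ∃ (ε : ι → (𝓞 F)ˣ) (q : ℚ), Units.regulator F = q * Matrix.det (Matrix.of fun a b : ι =>
        Real.log (u a ((ε b : 𝓞 F) : F) ^ (u a).mult))

/-- REG2. The same with all infinite places and an element `x` of `F^*`. -/
def S_REG2 : Prop :=
  ∀ (F : Type) [Field F] [NumberField F] (ι : Type) [Fintype ι]
    [DecidableEq ι] (u : ι → InfinitePlace F), Function.Bijective u → ∀ x : Fˣ,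
    ∃ (y : ι → Fˣ) (q : ℚ), (∀ b, y b = x ∨ ∃ ε : (𝓞 F)ˣ, (y b : F) = ((ε : 𝓞 F) : F)) ∧
      Units.regulator F * (∑ w : InfinitePlace F, Real.log (w (x : F) ^ w.mult)) =
        q * Matrix.det (Matrix.of fun a b : ι => Real.log (u a (y b : F) ^ (u a).mult))

section dict

variable (F H G K : Type) [Field F] [NumberField F] [Field H] [NumberField H] [Algebra F H]
  [CommGroup G] [MulSemiringAction G H] [Field K] [NumberField K] [Algebra F K] [Algebra K H]

/-- `K` is the field which belongs to the kernel of the quadratic character `χ`. -/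
structure Dict (τ : K ≃ₐ[F] K) (χ : G →* ℂˣ) : Prop where
  quad : Quad F K τ
  tower : IsScalarTower F K H
  one : ∀ g : G, χ g = 1 → ∀ x : K, g • algebraMap K H x = algebraMap K H x
  neg : ∀ g : G, χ g ≠ 1 → ∀ x : K, g • algebraMap K H x = algebraMap K H (τ x)
  sq : ∀ g : G, χ g * χ g = 1
  ex : ∃ g : G, χ g ≠ 1
  fix : ∀ y : H, (∀ g : G, χ g = 1 → g • y = y) → ∃ x : K, algebraMap K H x = y

end dict

/-- DICT. The existence of `K`. -/
def S_DICT : Prop :=
  ∀ (F H G : Type) [Field F] [NumberField F] [Field H] [NumberField H] [Algebra F H]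
    [CommGroup G] [Finite G] [MulSemiringAction G H] [IsGaloisGroup G F H] (χ : G →* ℂˣ),
    (∀ g : G, χ g * χ g = 1) → (∃ g : G, χ g ≠ 1) →
    ∃ (K : Type) (_ : Field K) (_ : NumberField K) (_ : Algebra F K) (_ : Algebra K H)
      (τ : K ≃ₐ[F] K), Dict F H G K τ χ

/-- FROB. The Frobenius automorphism at an unramified prime ideal. -/
def S_FROB : Prop :=
  ∀ (F H G K : Type) [Field F] [NumberField F] [Field H] [NumberField H] [Algebra F H]
    [CommGroup G] [Finite G] [MulSemiringAction G H] [IsGaloisGroup G F H] [Field K]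
    [NumberField K] [Algebra F K] [Algebra K H] (τ : K ≃ₐ[F] K) (χ : G →* ℂˣ),
    Dict F H G K τ χ → ∀ (v : HeightOneSpectrum (𝓞 F)) (σ : G),
    Squarefree (v.asIdeal.map (algebraMap (𝓞 F) (𝓞 H))) → IsFrob (H := H) v σ →
    ((loc K v : ℤ) : ℂ) = ((χ σ : ℂˣ) : ℂ)

/-- FINW. The decomposition groups of the prime ideals. -/
def S_FINW : Prop :=
  ∀ (F H G K : Type) [Field F] [NumberField F] [Field H] [NumberField H] [Algebra F H]
    [CommGroup G] [Finite G] [MulSemiringAction G H] [IsGaloisGroup G F H] [Field K]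
    [NumberField K] [Algebra F K] [Algebra K H] (τ : K ≃ₐ[F] K) (χ : G →* ℂˣ),
    Dict F H G K τ χ → ∀ (v : HeightOneSpectrum (𝓞 F)) (w : HeightOneSpectrum (𝓞 H)),
    Above {v} w → ((∀ γ : G, Fixes (Sum.inr w : Place H) γ → χ γ = 1) ↔ loc K v = 1)

/-- INFW. The decomposition groups of the infinite places. -/
def S_INFW : Prop :=
  ∀ (F H G K : Type) [Field F] [NumberField F] [Field H] [NumberField H] [Algebra F H]
    [CommGroup G] [Finite G] [MulSemiringAction G H] [IsGaloisGroup G F H] [Field K]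
    [NumberField K] [Algebra F K] [Algebra K H] (τ : K ≃ₐ[F] K) (χ : G →* ℂˣ),
    Dict F H G K τ χ → ∀ w : InfinitePlace H,
    ((∀ γ : G, Fixes (Sum.inl w : Place H) γ → χ γ = 1) ↔
      (w.comap (algebraMap K H)).comap (τ : K →+* K) ≠ w.comap (algebraMap K H))

/-- COUNT. The number of the infinite places of a quadratic extension. -/
def S_COUNT : Prop :=
  ∀ (F K : Type) [Field F] [NumberField F] [Field K] [NumberField K] [Algebra F K]
    (τ : K ≃ₐ[F] K), Quad F K τ →
    Nat.card {v : InfinitePlace F // ∃ u : InfinitePlace K, u.comap (algebraMap F K) = v ∧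
      u.comap (τ : K →+* K) ≠ u} + Fintype.card (InfinitePlace F) = Fintype.card (InfinitePlace K)

/-- MULT. A place which splits completely is complex only if the place below is complex. -/
def S_MULT : Prop :=
  ∀ (F H G K : Type) [Field F] [NumberField F] [Field H] [NumberField H] [Algebra F H]
    [CommGroup G] [Finite G] [MulSemiringAction G H] [IsGaloisGroup G F H] [Field K]
    [NumberField K] [Algebra F K] [Algebra K H] [IsScalarTower F K H] (w : InfinitePlace H),
    (∀ γ : G, Fixes (Sum.inl w : Place H) γ → γ = 1) →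
    w.mult = (w.comap (algebraMap K H)).mult

/-- PUNIT. Elements at the prime ideals which split completely. -/
def S_PUNIT : Prop :=
  ∀ (F H G : Type) [Field F] [NumberField F] [Field H] [NumberField H] [Algebra F H]
    [CommGroup G] [Finite G] [MulSemiringAction G H] [IsGaloisGroup G F H] (χ : G →* ℂˣ),
    (∀ g : G, χ g * χ g = 1) → ∀ (v : HeightOneSpectrum (𝓞 F)) (w : HeightOneSpectrum (𝓞 H)),
    Above {v} w → (∀ γ : G, Fixes (Sum.inr w : Place H) γ → γ = 1) →
    ∃ x : Hˣ, (∀ g : G, χ g = 1 → act g x = x) ∧ (∀ g : G, χ g ≠ 1 → act g x = x⁻¹) ∧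
      (∀ w' : HeightOneSpectrum (𝓞 H), ¬ Above {v} w' → w'.valuation H (x : H) = 1) ∧
      ∃ q : ℚ, q ≠ 0 ∧ Real.log (av (Sum.inr w : Place H) (x : H)) =
        q * Real.log (Ideal.absNorm v.asIdeal)

section places

variable {F H G : Type} [Field F] [NumberField F] [Field H] [NumberField H] [Algebra F H]
  [CommGroup G] [Finite G] [MulSemiringAction G H]

/-- `χ` is trivial on the decomposition groups of the place `p` of `F`. -/
def SplAt (H : Type) [Field H] [NumberField H] [Algebra F H] [MulSemiringAction G H]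
    (χ : G →* ℂˣ) : InfinitePlace F ⊕ HeightOneSpectrum (𝓞 F) → Prop
  | Sum.inl v => ∀ w : InfinitePlace H, w.comap (algebraMap F H) = v →
      ∀ γ : G, Fixes (Sum.inl w : Place H) γ → χ γ = 1
  | Sum.inr v => ∀ w : HeightOneSpectrum (𝓞 H), Above {v} w →
      ∀ γ : G, Fixes (Sum.inr w : Place H) γ → χ γ = 1

/-- The place `p` of `F` belongs to `S`. -/
def InSF (D : RubinData F H G) : InfinitePlace F ⊕ HeightOneSpectrum (𝓞 F) → Prop
  | Sum.inl _ => True
  | Sum.inr v => v ∈ D.S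

end places

/-- PLACES. The places `v_1, ..., v_r` of `F`. -/
def S_PLACES : Prop :=
  ∀ (F H G : Type) [Field F] [NumberField F] [Field H] [NumberField H] [Algebra F H]
    [CommGroup G] [Finite G] [MulSemiringAction G H] [IsGaloisGroup G F H]
    (D : RubinData F H G), ∃ f : Fin D.r → InfinitePlace F ⊕ HeightOneSpectrum (𝓞 F),
    Function.Injective f ∧
    (∀ a w, D.w a = Sum.inl w → f a = Sum.inl (w.comap (algebraMap F H))) ∧
    (∀ a w, D.w a = Sum.inr w → ∃ v, f a = Sum.inr v ∧ v ∈ D.S ∧ Above {v} w) ∧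
    (∀ χ : G →* ℂˣ, ∀ a, SplAt H χ (f a)) ∧
    (∃ p, InSF D p ∧ p ∉ Set.range f) ∧
    (∀ χ : G →* ℂˣ, χ ≠ 1 → (D.Active χ ↔ ∀ p, InSF D p → SplAt H χ p → p ∈ Set.range f)) ∧
    (D.Active 1 ↔ ∀ p p', InSF D p → InSF D p' → p ∉ Set.range f → p' ∉ Set.range f → p = p')

/-- The statement for one character: the leading term of `L_S(χ, s)` is a rational multiple of a
regulator of elements of the `χ`-part of the `S`-units. -/
def CharStark {F H G : Type} [Field F] [NumberField F] [Field H] [NumberField H] [Algebra F H]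
    [CommGroup G] [Finite G] [MulSemiringAction G H] (D : RubinData F H G) (χ : G →* ℂˣ) : Prop :=
  (¬ D.Active χ → Tendsto (fun s : ℂ => (s ^ D.r)⁻¹ * D.L χ s) (𝓝[≠] 0) (𝓝 0)) ∧
  (D.Active χ → ∃ (x : Fin D.r → D.U ∅) (q : ℚ),
    (∀ b, ∀ g : G, χ g = 1 → act g (x b : Hˣ) = x b) ∧
    (∀ b, ∀ g : G, χ g ≠ 1 → act g (x b : Hˣ) = (x b : Hˣ)⁻¹) ∧
    Tendsto (fun s : ℂ => (s ^ D.r)⁻¹ * D.L χ s) (𝓝[≠] 0)
      (𝓝 ((q : ℂ) * ((Matrix.det (Matrix.of fun a b : Fin D.r =>
        Real.log (av (D.w a) ((x b : Hˣ) : H))) : ℝ) : ℂ))))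

/-- ASM. Stark's conjecture over `ℚ` from the statements for the characters. -/
def S_ASM : Prop :=
  ∀ (F H G : Type) [Field F] [NumberField F] [Field H] [NumberField H] [Algebra F H]
    [CommGroup G] [Finite G] [MulSemiringAction G H] [IsGaloisGroup G F H]
    (D : RubinData F H G), (∀ g : G, g * g = 1) → (∀ χ : G →* ℂˣ, CharStark D χ) → D.Stark ∅

/-- CHI. The statement for `χ ≠ 1`. -/
def S_CHI : Prop :=
  ∀ (F H G : Type) [Field F] [NumberField F] [Field H] [NumberField H] [Algebra F H]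
    [CommGroup G] [Finite G] [MulSemiringAction G H] [IsGaloisGroup G F H]
    (D : RubinData F H G), (∀ g : G, g * g = 1) → ∀ χ : G →* ℂˣ, χ ≠ 1 → CharStark D χ

/-- ONE. The statement for `χ = 1`. -/
def S_ONE : Prop :=
  ∀ (F H G : Type) [Field F] [NumberField F] [Field H] [NumberField H] [Algebra F H]
    [CommGroup G] [Finite G] [MulSemiringAction G H] [IsGaloisGroup G F H]
    (D : RubinData F H G), CharStark D 1

/-- BLOCK. The determinant of a block triangular matrix with a diagonal block. -/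
def S_BLOCK : Prop :=
  ∀ (ι : Type) [Fintype ι] [DecidableEq ι] (p : ι → Prop) [DecidablePred p] (M : ι → ι → ℝ),
    (∀ a b, ¬ p a → a ≠ b → M a b = 0) →
    Matrix.det (Matrix.of M) = Matrix.det (Matrix.of fun a b : {a // p a} => M a b) *
      ∏ a : {a // ¬ p a}, M a a

end Pool.Agent.K3h56.E2
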