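import Pool.Agent.K3h56.E2.Stm
import Pool.Agent.K3h30.RS.Act
import Pool.Agent.K3h25.RS.Trans

/-! Stark's conjecture over `ℚ` for groups of exponent two: the nontrivial characters. -/

set_option autoImplicit false
set_option linter.unusedSectionVars false

open NumberField IsDedekindDomain Filter Topology

noncomputable section

namespace Pool.Agent.K3h56.E2

open Pool.Agent.K3h30.RS

variable {F H G : Type} [Field F] [NumberField F] [Field H] [NumberField H] [Algebra F H]
  [CommGroup G] [Finite G] [MulSemiringAction G H]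

/-- `G` acts transitively on the infinite places over a place of `F` -/
theorem inf_trans [IsGaloisGroup G F H] {w w' : InfinitePlace H}
    (h : w.comap (algebraMap F H) = w'.comap (algebraMap F H)) :
    ∃ g : G, ∀ x : H, w' x = w (g • x) := by
  have hG : IsGalois F H := IsGaloisGroup.isGalois G F H
  obtain ⟨σ, hσ⟩ := InfinitePlace.exists_smul_eq_of_comap_eq h
  refine ⟨(IsGaloisGroup.mulEquivAlgEquiv G F H).symm σ⁻¹, fun x => ?_⟩
  rw [← hσ]
  have h1 : (IsGaloisGroup.mulEquivAlgEquiv G F H).symm σ⁻¹ • x = σ⁻¹ x := by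
    conv_rhs => rw [← MulEquiv.apply_symm_apply (IsGaloisGroup.mulEquivAlgEquiv G F H) σ⁻¹]
    rfl
  rw [h1]
  rfl

theorem fixes_inl {w : InfinitePlace H} {γ : G} :
    Fixes (Sum.inl w : Place H) γ ↔ ∀ x : H, w (γ • x) = w x := by
  constructor
  · intro h x
    exact (pow_left_inj₀ (apply_nonneg w _) (apply_nonneg w _) w.mult_ne_zero).1 (h x)
  · intro h x
    show w (γ • x) ^ w.mult = w x ^ w.mult
    rw [h x]


theorem mult_smul {w w' : InfinitePlace H} [IsGaloisGroup G F H] {g : G}
    (h : ∀ x : H, w' x = w (g • x)) (γ : G) :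
    Fixes (Sum.inl w : Place H) γ ↔ Fixes (Sum.inl w' : Place H) γ := by
  rw [fixes_inl, fixes_inl]
  constructor
  · intro h1 x
    rw [h, h, ← mul_smul, mul_comm g γ, mul_smul, h1]
  · intro h1 x
    have h2 := h1 (g⁻¹ • x)
    rw [h, h, ← mul_smul, ← mul_smul, ← mul_smul, mul_inv_cancel_comm,
      mul_inv_cancel, one_smul] at h2
    exact h2

section
variable {K : Type} [Field K] [NumberField K] [Algebra F K] [Algebra K H] {τ : K ≃ₐ[F] K}
  {χ : G →* ℂˣ}

theorem splAt_inl (hI : S_INFW) [IsGaloisGroup G F H] (hd : Dict F H G K τ χ)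
    (v : InfinitePlace F) :
    SplAt H χ (Sum.inl v) ↔ ∃ u : InfinitePlace K, u.comap (algebraMap F K) = v ∧
      u.comap (τ : K →+* K) ≠ u := by
  have htw : IsScalarTower F K H := hd.tower
  have hcomp : ∀ w : InfinitePlace H,
      (w.comap (algebraMap K H)).comap (algebraMap F K) = w.comap (algebraMap F H) := by
    intro w
    rw [IsScalarTower.algebraMap_eq F K H, InfinitePlace.comap_comp]
  constructor
  · intro h
    obtain ⟨w, hw⟩ := InfinitePlace.comap_surjective (k := F) (K := H) v
    exact ⟨w.comap (algebraMap K H), by rw [hcomp]; exact hw,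
      (hI F H G K τ χ hd w).1 (h w hw)⟩
  · rintro ⟨u, hu, hτ⟩ w hw γ hγ
    obtain ⟨w0, hw0⟩ := InfinitePlace.comap_surjective (k := K) (K := H) u
    have hw0' : w0.comap (algebraMap K H) = u := hw0
    have h1 : ∀ γ : G, Fixes (Sum.inl w0 : Place H) γ → χ γ = 1 :=
      (hI F H G K τ χ hd w0).2 (by rw [hw0']; exact hτ)
    obtain ⟨g, hg⟩ := inf_trans (F := F) (G := G) (w := w0) (w' := w) (by
      rw [← hcomp, hw0', hu, hw])
    exact h1 γ ((mult_smul (F := F) hg γ).2 hγ)

theorem splAt_inr (hF : S_FINW) [IsGaloisGroup G F H] (hd : Dict F H G K τ χ)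
    (v : HeightOneSpectrum (𝓞 F)) :
    SplAt H χ (Sum.inr v) ↔ loc K v = 1 := by
  constructor
  · intro h
    obtain ⟨w, hw⟩ := (Pool.Agent.K3h25.RS.t_OVER F H v).1
    exact (hF F H G K τ χ hd v w hw).1 (h w hw)
  · intro h w hw
    exact (hF F H G K τ χ hd v w hw).2 h

end

theorem av_inr_one {w : HeightOneSpectrum (𝓞 H)} {x : H} (h : w.valuation H x = 1) :
    av (Sum.inr w : Place H) x = 1 := by
  change HeightOneSpectrum.adicAbv H w x = 1
  rw [HeightOneSpectrum.adicAbv_def, h, map_one, NNReal.coe_one]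

theorem val_unit {K : Type} [Field K] [NumberField K] [Algebra K H] (w : HeightOneSpectrum (𝓞 H))
    (ε : (𝓞 K)ˣ) : w.valuation H (algebraMap K H ((ε : 𝓞 K) : K)) = 1 := by
  have h1 : ∀ e : (𝓞 K)ˣ, w.valuation H (algebraMap K H ((e : 𝓞 K) : K)) ≤ 1 := by
    intro e
    have h2 : algebraMap K H ((e : 𝓞 K) : K) =
        ((algebraMap (𝓞 K) (𝓞 H) (e : 𝓞 K) : 𝓞 H) : H) := rfl
    rw [h2]
    exact w.valuation_le_one _
  apply le_antisymm (h1 ε)
  have h3 := h1 ε⁻¹
  have h4 : algebraMap K H (((ε⁻¹ : (𝓞 K)ˣ) : 𝓞 K) : K) *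
      algebraMap K H ((ε : 𝓞 K) : K) = 1 := by
    rw [← map_mul, ← map_mul, Units.inv_mul, map_one, map_one]
  have h5 := congrArg (w.valuation H) h4
  rw [map_mul, map_one] at h5
  calc (1 : WithZero (Multiplicative ℤ)) = _ := h5.symm
    _ ≤ 1 * w.valuation H (algebraMap K H ((ε : 𝓞 K) : K)) := by gcongr
    _ = _ := one_mul _

/-- the nontrivial characters -/
theorem t_CHI (hZ : S_ZETA0) (hZP : S_ZPROD) (hLim : S_LIM) (hReg : S_REG) (hDict : S_DICT)
    (hFrob : S_FROB) (hFw : S_FINW) (hIw : S_INFW) (hCount : S_COUNT) (hMult : S_MULT)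
    (hPu : S_PUNIT) (hPl : S_PLACES) (hBl : S_BLOCK) : S_CHI := by
  classical
  intro F H G _ _ _ _ _ _ _ _ _ D hG χ hχ
  have hsq : ∀ g : G, χ g * χ g = 1 := fun g => by rw [← map_mul, hG, map_one]
  have hex : ∃ g : G, χ g ≠ 1 := by
    by_contra hcon
    push Not at hcon
    exact hχ (MonoidHom.ext hcon)
  obtain ⟨K, _, _, _, _, τ, hd⟩ := hDict F H G χ hsq hex
  have htw : IsScalarTower F K H := hd.tower
  have hcomp : ∀ w : InfinitePlace H,
      (w.comap (algebraMap K H)).comap (algebraMap F K) = w.comap (algebraMap F H) := by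
    intro w
    rw [IsScalarTower.algebraMap_eq F K H, InfinitePlace.comap_comp]
  obtain ⟨f, hfi, hfl, hfr, hfs, -, hact, -⟩ := hPl F H G D
  -- the infinite places
  have hA : Fintype.card {v : InfinitePlace F // SplAt H χ (Sum.inl v)} +
      Fintype.card (InfinitePlace F) = Fintype.card (InfinitePlace K) := by
    rw [← hCount F K τ hd.quad, Nat.card_eq_fintype_card]
    congr 1
    exact Fintype.card_congr (Equiv.subtypeEquivRight fun v => splAt_inl hIw hd v)
  set B : Finset (HeightOneSpectrum (𝓞 F)) := D.S.filter fun v => loc K v = 1 with hBdef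
  set A : Finset (InfinitePlace F) := Finset.univ.filter fun v => SplAt H χ (Sum.inl v) with hAdef
  have hAcard : A.card + Fintype.card (InfinitePlace F) = Fintype.card (InfinitePlace K) := by
    rw [← hA, hAdef, Fintype.card_subtype]
  set P : Finset (InfinitePlace F ⊕ HeightOneSpectrum (𝓞 F)) := A.disjSum B with hPdef
  have hPcard : P.card = A.card + B.card := Finset.card_disjSum _ _
  have hPmem : ∀ p, p ∈ P ↔ InSF D p ∧ SplAt H χ p := by
    intro p
    rcases p with v | v
    · rw [hPdef, Finset.inl_mem_disjSum, hAdef, Finset.mem_filter]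
      simp [InSF]
    · rw [hPdef, Finset.inr_mem_disjSum, hBdef, Finset.mem_filter, splAt_inr hFw hd]
      rfl
  have hfIn : ∀ a, InSF D (f a) := by
    intro a
    rcases hw : D.w a with w | w
    · rw [hfl a w hw]
      trivial
    · obtain ⟨v, h1, h2, -⟩ := hfr a w hw
      rw [h1]
      exact h2
  have hfP : ∀ a, f a ∈ P := fun a => (hPmem _).2 ⟨hfIn a, hfs χ a⟩
  have himg : (Finset.univ.image f) ⊆ P := by
    intro p hp
    obtain ⟨a, -, rfl⟩ := Finset.mem_image.1 hp
    exact hfP a
  have himgc : (Finset.univ.image f).card = D.r := by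
    rw [Finset.card_image_of_injective _ hfi, Finset.card_univ, Fintype.card_fin]
  -- the leading term
  obtain ⟨q, hq⟩ := hLim hZ hZP F K τ hd.quad D.S (D.L χ) (D.analytic χ) (by
    intro s hs
    have h1 := D.euler χ s hs
    have h2 : ∀ v : {v : HeightOneSpectrum (𝓞 F) // v ∉ D.S},
        ((χ (D.σ (v : HeightOneSpectrum (𝓞 F))) : ℂˣ) : ℂ) =
          ((loc K (v : HeightOneSpectrum (𝓞 F)) : ℤ) : ℂ) := fun v =>
      (hFrob F H G K τ χ hd v (D.σ v) (D.unramified v v.2) (D.frob v v.2)).symm
    simp only [h2] at h1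
    exact h1) (by omega)
  have hn : (Fintype.card (InfinitePlace K) - Fintype.card (InfinitePlace F)) + B.card = P.card := by
    omega
  rw [← hBdef, hn] at hq
  refine ⟨fun hna => ?_, fun ha => ?_⟩
  · -- `χ` is not active: the order is larger than `r`
    have hlt : D.r < P.card := by
      rw [← himgc]
      apply Finset.card_lt_card
      refine ⟨himg, fun hsub => hna ((hact χ hχ).2 fun p h1 h2 => ?_)⟩
      obtain ⟨a, -, ha⟩ := Finset.mem_image.1 (hsub ((hPmem p).2 ⟨h1, h2⟩))
      exact ⟨a, ha⟩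
    have h1 : Tendsto (fun s : ℂ => s ^ (P.card - D.r)) (𝓝[≠] 0) (𝓝 0) := by
      have h2 : Tendsto (fun s : ℂ => s ^ (P.card - D.r)) (𝓝 0) (𝓝 (0 ^ (P.card - D.r))) :=
        (continuous_pow _).tendsto _
      rw [zero_pow (by omega)] at h2
      exact h2.mono_left nhdsWithin_le_nhds
    have h3 := h1.mul hq
    rw [zero_mul] at h3
    refine h3.congr' ?_
    filter_upwards [self_mem_nhdsWithin] with s hs
    have hs0 : s ≠ 0 := hs
    have h4 : s ^ P.card = s ^ (P.card - D.r) * s ^ D.r := by
      rw [← pow_add]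
      congr 1
      omega
    rw [h4]
    field_simp
  · -- `χ` is active
    have himgP : Finset.univ.image f = P := by
      apply le_antisymm himg
      intro p hp
      obtain ⟨h1, h2⟩ := (hPmem p).1 hp
      obtain ⟨a, ha'⟩ := (hact χ hχ).1 ha p h1 h2
      exact Finset.mem_image.2 ⟨a, Finset.mem_univ a, ha'⟩
    have hr : D.r = P.card := by rw [← himgc, himgP]
    rw [← hr] at hq
    -- the infinite places
    set isl : Fin D.r → Prop := fun a => (D.w a).isLeft = true with hisl
    have hwi : ∀ a : {a // isl a}, ∃ w : InfinitePlace H, D.w a = Sum.inl w := fun a =>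
      Sum.isLeft_iff.1 a.2
    choose wi hwi using hwi
    have hwf : ∀ a : {a // ¬ isl a}, ∃ w : HeightOneSpectrum (𝓞 H), D.w a = Sum.inr w := by
      intro a
      rcases hw : D.w a with w | w
      · exact absurd (show (D.w a).isLeft = true by rw [hw]; rfl) a.2
      · exact ⟨w, rfl⟩
    choose wf hwf using hwf
    have hvf : ∀ a : {a // ¬ isl a}, ∃ v, f a = Sum.inr v ∧ v ∈ D.S ∧ Above {v} (wf a) :=
      fun a => hfr a (wf a) (hwf a)
    choose vf hvf1 hvf2 hvf3 using hvf
    set u : {a // isl a} → InfinitePlace K := fun a => (wi a).comap (algebraMap K H) with hu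
    have hfu : ∀ a : {a // isl a}, f a = Sum.inl ((u a).comap (algebraMap F K)) := by
      intro a
      rw [hfl a (wi a) (hwi a), hu, hcomp]
    have hu1 : ∀ a, (u a).comap (τ : K →+* K) ≠ u a := by
      intro a
      refine (hIw F H G K τ χ hd (wi a)).1 fun γ hγ => ?_
      rw [← hwi a] at hγ
      rw [D.splits a γ hγ, map_one]
    have hu2 : ∀ a b, (u a).comap (algebraMap F K) = (u b).comap (algebraMap F K) → a = b := by
      intro a b hab
      apply Subtype.ext
      apply hfi
      rw [hfu, hfu, hab]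
    have hιA : Fintype.card {a // isl a} = A.card := by
      rw [← Fintype.card_coe]
      refine Fintype.card_of_bijective (f := fun a : {a // isl a} =>
        (⟨(u a).comap (algebraMap F K), by
          have h1 := hfP a
          rw [hfu, hPdef, Finset.inl_mem_disjSum] at h1
          exact h1⟩ : A)) ⟨?_, ?_⟩
      · intro a b hab
        exact hu2 a b (congrArg Subtype.val hab)
      · rintro ⟨v, hv⟩
        have h1 : Sum.inl v ∈ P := by
          rw [hPdef, Finset.inl_mem_disjSum]
          exact hv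
        rw [← himgP] at h1
        obtain ⟨a, -, ha'⟩ := Finset.mem_image.1 h1
        have h2 : isl a := by
          by_contra hna
          have := hvf1 ⟨a, hna⟩
          rw [ha'] at this
          exact absurd this (by simp)
        refine ⟨⟨a, h2⟩, Subtype.ext ?_⟩
        have h3 := hfu ⟨a, h2⟩
        rw [ha'] at h3
        exact (Sum.inl.inj h3).symm
    obtain ⟨ε, q', hε, hR⟩ := hReg F K τ hd.quad {a // isl a} u hu1 hu2 (by omega)
    -- the finite places
    have hpu : ∀ a : {a // ¬ isl a}, ∃ x : Hˣ, (∀ g : G, χ g = 1 → act g x = x) ∧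
        (∀ g : G, χ g ≠ 1 → act g x = x⁻¹) ∧
        (∀ w' : HeightOneSpectrum (𝓞 H), ¬ Above {vf a} w' → w'.valuation H (x : H) = 1) ∧
        ∃ q : ℚ, q ≠ 0 ∧ Real.log (av (D.w a) (x : H)) =
          q * Real.log (Ideal.absNorm (vf a).asIdeal) := by
      intro a
      obtain ⟨x, h1, h2, h3, h4⟩ := hPu F H G χ hsq (vf a) (wf a) (hvf3 a) (fun γ hγ => by
        rw [← hwf a] at hγ
        exact D.splits a γ hγ)
      refine ⟨x, h1, h2, h3, ?_⟩
      rw [hwf a]
      exact h4
    choose y hy1 hy2 hy3 qf hqf0 hqf using hpu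
    -- the family
    have hεH : ∀ b : {a // isl a}, algebraMap K H ((ε b : 𝓞 K) : K) ≠ 0 := by
      intro b
      exact (map_ne_zero _).2 (RingOfIntegers.coe_ne_zero_iff.2 (ε b).ne_zero)
    set x : Fin D.r → Hˣ := fun b => if h : isl b then
      Units.mk0 (algebraMap K H ((ε ⟨b, h⟩ : 𝓞 K) : K)) (hεH ⟨b, h⟩) else y ⟨b, h⟩ with hx
    have hxl : ∀ b : {a // isl a}, ((x b : Hˣ) : H) = algebraMap K H ((ε b : 𝓞 K) : K) := by
      intro b
      rw [hx]
      simp only [dif_pos b.2, Units.val_mk0]
    have hxr : ∀ b : {a // ¬ isl a}, x b = y b := by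
      intro b
      rw [hx]
      simp only [dif_neg b.2]
    have hxU : ∀ b, x b ∈ D.U ∅ := by
      intro b
      refine ⟨fun w hw => ?_, fun w hw => ?_⟩
      · by_cases h : isl b
        · rw [hxl ⟨b, h⟩]
          exact val_unit w _
        · rw [hxr ⟨b, h⟩]
          refine hy3 ⟨b, h⟩ w fun hab => hw ?_
          obtain ⟨v, hv, hvw⟩ := hab
          rw [Set.mem_singleton_iff] at hv
          exact ⟨v, by rw [hv]; exact hvf2 ⟨b, h⟩, hvw⟩
      · obtain ⟨v, hv, -⟩ := hw
        simp at hv
    have hblock := hBl (Fin D.r) isl (fun a b => Real.log (av (D.w a) ((x b : Hˣ) : H))) (by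
      intro a b hna hab
      have h1 : (wf ⟨a, hna⟩).valuation H ((x b : Hˣ) : H) = 1 := by
        by_cases h : isl b
        · rw [hxl ⟨b, h⟩]
          exact val_unit _ _
        · rw [hxr ⟨b, h⟩]
          refine hy3 ⟨b, h⟩ _ fun hab' => hab ?_
          have h2 := hvf3 ⟨a, hna⟩
          rw [above_singleton] at h2 hab'
          have h3 : vf ⟨a, hna⟩ = vf ⟨b, h⟩ := by
            apply HeightOneSpectrum.ext
            rw [← h2, ← hab']
          apply hfi
          rw [hvf1 ⟨a, hna⟩, hvf1 ⟨b, h⟩, h3]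
      show Real.log (av (D.w a) ((x b : Hˣ) : H)) = 0
      rw [hwf ⟨a, hna⟩, av_inr_one h1, Real.log_one])
    have hdet1 : (Matrix.of fun a b : {a // isl a} =>
        Real.log (av (D.w a) ((x b : Hˣ) : H))) = Matrix.of fun a b : {a // isl a} =>
        Real.log (u a ((ε b : 𝓞 K) : K) ^ (u a).mult) := by
      ext a b
      simp only [Matrix.of_apply]
      rw [hwi a, hxl b]
      show Real.log ((wi a) (algebraMap K H ((ε b : 𝓞 K) : K)) ^ (wi a).mult) = _
      rw [hMult F H G K (wi a) (fun γ hγ => by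
        rw [← hwi a] at hγ
        exact D.splits a γ hγ)]
      rfl
    have hprod : ∏ a : {a // ¬ isl a}, Real.log (av (D.w a) ((x a : Hˣ) : H)) =
        ((∏ a, qf a : ℚ) : ℝ) * ∏ v ∈ B, Real.log (Ideal.absNorm v.asIdeal) := by
      have h1 : ∀ a : {a // ¬ isl a}, Real.log (av (D.w a) ((x a : Hˣ) : H)) =
          (qf a : ℝ) * Real.log (Ideal.absNorm (vf a).asIdeal) := by
        intro a
        rw [hxr a]
        exact hqf a
      rw [Finset.prod_congr rfl fun a _ => h1 a, Finset.prod_mul_distrib, Rat.cast_prod]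
      congr 1
      refine Finset.prod_bij (fun a _ => vf a) (fun a _ => ?_) (fun a _ b _ hab => ?_)
        (fun v hv => ?_) (fun a _ => rfl)
      · have h2 := hfP a
        rw [hvf1 a, hPdef, Finset.inr_mem_disjSum] at h2
        exact h2
      · apply Subtype.ext
        apply hfi
        rw [hvf1 a, hvf1 b, hab]
      · have h2 : Sum.inr v ∈ P := by
          rw [hPdef, Finset.inr_mem_disjSum]
          exact hv
        rw [← himgP] at h2
        obtain ⟨a, -, ha'⟩ := Finset.mem_image.1 h2
        have h3 : ¬ isl a := by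
          intro hla
          have := hfu ⟨a, hla⟩
          rw [ha'] at this
          exact absurd this (by simp)
        refine ⟨⟨a, h3⟩, Finset.mem_univ _, ?_⟩
        have h4 := hvf1 ⟨a, h3⟩
        rw [ha'] at h4
        exact (Sum.inr.inj h4).symm
    refine ⟨fun b => ⟨x b, hxU b⟩, q * q' * (∏ a, qf a)⁻¹, ?_, ?_, ?_⟩
    · intro b g hg
      show act g (x b) = x b
      by_cases h : isl b
      · apply Units.ext
        rw [act_val, hxl ⟨b, h⟩]
        exact hd.one g hg _
      · rw [hxr ⟨b, h⟩]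
        exact hy1 ⟨b, h⟩ g hg
    · intro b g hg
      show act g (x b) = (x b)⁻¹
      by_cases h : isl b
      · apply Units.ext
        rw [act_val, Units.val_inv_eq_inv_val, hxl ⟨b, h⟩, hd.neg g hg, hε, map_inv₀]
      · rw [hxr ⟨b, h⟩]
        exact hy2 ⟨b, h⟩ g hg
    · have hqne : ((∏ a, qf a : ℚ) : ℝ) ≠ 0 := by
        have : (∏ a, qf a) ≠ 0 := Finset.prod_ne_zero_iff.2 fun a _ => hqf0 a
        exact_mod_cast this
      have h1 : (q : ℝ) * (Units.regulator K / Units.regulator F *
          ∏ v ∈ B, Real.log (Ideal.absNorm v.asIdeal)) =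
          ((q * q' * (∏ a, qf a)⁻¹ : ℚ) : ℝ) * Matrix.det (Matrix.of fun a b : Fin D.r =>
            Real.log (av (D.w a) ((x b : Hˣ) : H))) := by
        rw [hblock, hprod, hdet1, hR]
        push_cast
        rw [← Rat.cast_prod]
        field_simp
      have h2 := congrArg (fun z : ℝ => (z : ℂ)) h1
      simp only [Complex.ofReal_mul, Complex.ofReal_ratCast] at h2 hq ⊢
      rw [← h2]
      exact hq

end Pool.Agent.K3h56.E2
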