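import Pool.Agent.K3h56.E2.Stm3
import Pool.Agent.K3h56.E2.Chi
import Pool.Agent.K3h72.E2.Base
import Pool.Agent.K3h3.E2.KH
import Pool.Agent.K3h36.E2x.FACT

/-! Rubin's conjecture for groups of exponent two: the nontrivial characters, explicit form. -/

set_option autoImplicit false
set_option linter.unusedSectionVars false

open NumberField IsDedekindDomain Filter Topology

noncomputable section

namespace Pool.Agent.K3h56.E2

open Pool.Agent.K3h30.RS

/-- The set of the prime ideals over `S` is finite. -/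
theorem exists_over (hLoc : S_LOC) {F K : Type} [Field F] [NumberField F] [Field K] [NumberField K]
    [Algebra F K] {τ : K ≃ₐ[F] K} (hq : Quad F K τ) (S : Finset (HeightOneSpectrum (𝓞 F))) :
    ∃ A : Finset (HeightOneSpectrum (𝓞 K)), Over S A ∧
      A.card = S.card + (S.filter fun v => loc K v = 1).card := by
  classical
  have h1 : ∀ v : HeightOneSpectrum (𝓞 F), ∃ s : Finset (HeightOneSpectrum (𝓞 K)),
      (∀ Q, Q ∈ s ↔ Above {v} Q) ∧ s.card = 1 + if loc K v = 1 then 1 else 0 := by
    intro v
    obtain ⟨hl, hr⟩ := hLoc F K τ hq v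
    by_cases h : loc K v = 1
    · obtain ⟨P, P', hne, h2, -⟩ := hl h
      refine ⟨{P, P'}, fun Q => ?_, ?_⟩
      · rw [h2]
        simp
      · rw [if_pos h, Finset.card_pair hne]
    · obtain ⟨P, h2, -⟩ := hr h
      refine ⟨{P}, fun Q => ?_, ?_⟩
      · rw [h2]
        simp
      · rw [if_neg h, Finset.card_singleton]
  choose s hs1 hs2 using h1
  refine ⟨S.biUnion s, fun P => ?_, ?_⟩
  · rw [Finset.mem_biUnion]
    simp only [hs1]
  · rw [Finset.card_biUnion, Finset.sum_congr rfl fun v _ => hs2 v, Finset.sum_add_distrib,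
      Finset.sum_const, smul_eq_mul, mul_one, Finset.card_filter]
    intro v _ v' _ hne
    change Disjoint (s v) (s v')
    rw [Finset.disjoint_left]
    intro Q hQ hQ'
    rw [hs1, above_singleton] at hQ hQ'
    exact hne (HeightOneSpectrum.ext (by rw [← hQ, ← hQ']))

theorem squarefree_mid {F K H : Type} [Field F] [NumberField F] [Field K] [NumberField K] [Field H]
    [NumberField H] [Algebra F K] [Algebra K H] [Algebra F H] [IsScalarTower F K H]
    (I : Ideal (𝓞 F)) (h : Squarefree (I.map (algebraMap (𝓞 F) (𝓞 H)))) :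
    Squarefree (I.map (algebraMap (𝓞 F) (𝓞 K))) := by
  intro x hx
  have h1 : I.map (algebraMap (𝓞 F) (𝓞 H)) =
      (I.map (algebraMap (𝓞 F) (𝓞 K))).map (algebraMap (𝓞 K) (𝓞 H)) := by
    rw [IsScalarTower.algebraMap_eq (𝓞 F) (𝓞 K) (𝓞 H), ← Ideal.map_map]
  have h2 : x.map (algebraMap (𝓞 K) (𝓞 H)) * x.map (algebraMap (𝓞 K) (𝓞 H)) ∣
      I.map (algebraMap (𝓞 F) (𝓞 H)) := by
    rw [h1, ← Ideal.map_mul]
    exact Ideal.dvd_iff_le.2 (Ideal.map_mono (Ideal.dvd_iff_le.1 hx))
  have h3 := h _ h2
  rw [Ideal.isUnit_iff] at h3 ⊢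
  by_contra hne
  obtain ⟨M, hM, hxM⟩ := Ideal.exists_le_maximal x hne
  have hMne : M ≠ ⊥ := by
    rintro rfl
    have hx0 : x = ⊥ := le_bot_iff.1 hxM
    rw [hx0, Ideal.map_bot] at h3
    exact absurd h3 bot_ne_top
  obtain ⟨w, hw⟩ := (Pool.Agent.K3h25.RS.t_OVER K H ⟨M, hM.isPrime, hMne⟩).1
  rw [above_singleton] at hw
  have h4 : x.map (algebraMap (𝓞 K) (𝓞 H)) ≤ w.asIdeal := by
    rw [Ideal.map_le_iff_le_comap, hw]
    exact hxM
  rw [h3] at h4
  exact w.isPrime.ne_top (top_le_iff.1 h4)

theorem av_mem {K : Type} [Field K] [NumberField K] (P : HeightOneSpectrum (𝓞 K)) {x y : 𝓞 K}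
    (h : av (Sum.inr P : Place K) (x : K) = av (Sum.inr P : Place K) (y : K)) :
    x ∈ P.asIdeal ↔ y ∈ P.asIdeal := by
  have h1 : HeightOneSpectrum.adicAbv K P (x : K) = HeightOneSpectrum.adicAbv K P (y : K) := h
  have h2 : ∀ y : 𝓞 K, HeightOneSpectrum.adicAbv K P (y : K) < 1 ↔ y ∈ P.asIdeal := fun y =>
    P.adicAbv_coe_lt_one_iff (HeightOneSpectrum.one_lt_absNorm_nnreal P) y
  rw [← h2, ← h2, h1]

/-- The arithmetic of the leading term. -/
theorem final2 {q M J a E det X b σ : ℝ} (h1 : |q| * M * J = a * E * |det|) (h2 : J * M = X)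
    (h3 : X * b = σ) (ha : 0 ≤ a) (hb : 0 ≤ b) (hE : 0 ≤ E) (hX : 0 ≤ X) :
    q * σ = a * b * E * det ∨ q * σ = -(a * b * E * det) := by
  have h5 : |q * σ| = |a * b * E * det| := by
    rw [abs_mul, abs_mul, abs_of_nonneg (show 0 ≤ σ by rw [← h3]; positivity),
      abs_of_nonneg (show 0 ≤ a * b * E by positivity), ← h3, ← h2]
    have : |q| * (J * M * b) = (|q| * M * J) * b := by ring
    rw [this, h1]
    ring
  exact abs_eq_abs.1 h5

/-- the nontrivial characters -/
theorem t_CHI2 (hZ : S_ZETA0X) (hZP : S_ZPROD) (hLoc : S_LOC) (hLim : S_LIMX) (hDict : S_DICT)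
    (hFrob : S_FROB) (hFw : S_FINW) (hIw : S_INFW) (hCount : S_COUNT) (hPl : S_PLACES)
    (hMinus : S_MINUS) (hRank : S_RANK) (hKH : S_KH) (hAV : S_AVK) (hBa : S_BASIS)
    (hTP : S_TPART) : S_CHI2 := by
  classical
  intro F H G _ _ _ _ _ _ _ _ _ D T hT hG hdvd χ hχ
  have hsq : ∀ g : G, χ g * χ g = 1 := fun g => by rw [← map_mul, hG, map_one]
  have hex : ∃ g : G, χ g ≠ 1 := by
    by_contra hcon
    push Not at hcon
    exact hχ (MonoidHom.ext hcon)
  obtain ⟨K, _, _, _, _, τ, hd⟩ := hDict F H G χ hsq hex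
  have htw : IsScalarTower F K H := hd.tower
  obtain ⟨f, hfi, hfl, hfr, hfs, ⟨p1, hp1, hp1'⟩, hact, -⟩ := hPl F H G D
  obtain ⟨A0, hA0, hA0c⟩ := exists_over hLoc hd.quad D.S
  -- the infinite places
  have hA : Fintype.card {v : InfinitePlace F // SplAt H χ (Sum.inl v)} +
      Fintype.card (InfinitePlace F) = Fintype.card (InfinitePlace K) := by
    rw [← hCount F K τ hd.quad, Nat.card_eq_fintype_card]
    congr 1
    exact Fintype.card_congr (Equiv.subtypeEquivRight fun v => splAt_inl hIw hd v)
  set B : Finset (HeightOneSpectrum (𝓞 F)) := D.S.filter fun v => loc K v = 1 with hBdef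
  set A : Finset (InfinitePlace F) := Finset.univ.filter fun v => SplAt H χ (Sum.inl v) with hAdef
  have hAcard : A.card + Fintype.card (InfinitePlace F) = Fintype.card (InfinitePlace K) := by
    rw [← hA, hAdef, Fintype.card_subtype]
  set P : Finset (InfinitePlace F ⊕ HeightOneSpectrum (𝓞 F)) := A.disjSum B with hPdef
  have hPcard : P.card = A.card + B.card := Finset.card_disjSum _ _
  have hPmem : ∀ p, p ∈ P ↔ InSF D p ∧ SplAt H χ p := by
    intro p
    rcases p with v | v
    · rw [hPdef, Finset.inl_mem_disjSum, hAdef, Finset.mem_filter]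
      simp [InSF]
    · rw [hPdef, Finset.inr_mem_disjSum, hBdef, Finset.mem_filter, splAt_inr hFw hd]
      rfl
  have hcases : ∀ a, (∃ w, D.w a = Sum.inl w) ∨ ∃ w, D.w a = Sum.inr w := by
    intro a
    rcases D.w a with w | w
    · exact Or.inl ⟨w, rfl⟩
    · exact Or.inr ⟨w, rfl⟩
  have hfIn : ∀ a, InSF D (f a) := by
    intro a
    rcases hcases a with ⟨w, hw⟩ | ⟨w, hw⟩
    · rw [hfl a w hw]
      trivial
    · obtain ⟨v, h1, h2, -⟩ := hfr a w hw
      rw [h1]
      exact h2
  have hfP : ∀ a, f a ∈ P := fun a => (hPmem _).2 ⟨hfIn a, hfs χ a⟩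
  have himg : (Finset.univ.image f) ⊆ P := by
    intro p hp
    obtain ⟨a, -, rfl⟩ := Finset.mem_image.1 hp
    exact hfP a
  have himgc : (Finset.univ.image f).card = D.r := by
    rw [Finset.card_image_of_injective _ hfi, Finset.card_univ, Fintype.card_fin]
  -- the Euler product
  have heuler : ∀ s : ℂ, 1 < s.re → HasProd (fun v : {v : HeightOneSpectrum (𝓞 F) // v ∉ D.S} =>
      (1 - ((loc K (v : HeightOneSpectrum (𝓞 F)) : ℤ) : ℂ) *
        (Ideal.absNorm (v : HeightOneSpectrum (𝓞 F)).asIdeal : ℂ) ^ (-s))⁻¹) (D.L χ s) := by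
    intro s hs
    have h1 := D.euler χ s hs
    have h2 : ∀ v : {v : HeightOneSpectrum (𝓞 F) // v ∉ D.S},
        ((χ (D.σ (v : HeightOneSpectrum (𝓞 F))) : ℂˣ) : ℂ) =
          ((loc K (v : HeightOneSpectrum (𝓞 F)) : ℤ) : ℂ) := fun v =>
      (hFrob F H G K τ χ hd v (D.σ v) (D.unramified v v.2) (D.frob v v.2)).symm
    simp only [h2] at h1
    exact h1
  refine ⟨fun hna => ?_, fun ha => ?_⟩
  · -- `χ` is not active: the order is larger than `r`
    obtain ⟨-, q, hq, -⟩ := hLim hZ hZP hLoc F K τ hd.quad D.S A0 hA0 (D.L χ) (D.analytic χ)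
      heuler (by omega)
    have hn : (Fintype.card (InfinitePlace K) + A0.card) -
        (Fintype.card (InfinitePlace F) + D.S.card) = P.card := by omega
    rw [hn] at hq
    have hlt : D.r < P.card := by
      rw [← himgc]
      apply Finset.card_lt_card
      refine ⟨himg, fun hsub => hna ((hact χ hχ).2 fun p h1 h2 => ?_)⟩
      obtain ⟨a, -, ha⟩ := Finset.mem_image.1 (hsub ((hPmem p).2 ⟨h1, h2⟩))
      exact ⟨a, ha⟩
    have h1 : Tendsto (fun s : ℂ => s ^ (P.card - D.r)) (𝓝[≠] 0) (𝓝 0) := by
      have h2 : Tendsto (fun s : ℂ => s ^ (P.card - D.r)) (𝓝 0) (𝓝 (0 ^ (P.card - D.r))) :=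
        (continuous_pow _).tendsto _
      rw [zero_pow (by omega)] at h2
      exact h2.mono_left nhdsWithin_le_nhds
    have h3 := h1.mul hq
    rw [zero_mul] at h3
    refine h3.congr' ?_
    filter_upwards [self_mem_nhdsWithin] with s hs
    have hs0 : s ≠ 0 := hs
    have h4 : s ^ P.card = s ^ (P.card - D.r) * s ^ D.r := by
      rw [← pow_add]
      congr 1
      omega
    rw [h4]
    field_simp
  · -- `χ` is active
    have himgP : Finset.univ.image f = P := by
      apply le_antisymm himg
      intro p hp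
      obtain ⟨h1, h2⟩ := (hPmem p).1 hp
      obtain ⟨a, ha'⟩ := (hact χ hχ).1 ha p h1 h2
      exact Finset.mem_image.2 ⟨a, Finset.mem_univ a, ha'⟩
    have hr : D.r = P.card := by rw [← himgc, himgP]
    have hrc : D.r + (Fintype.card (InfinitePlace F) + D.S.card) =
        Fintype.card (InfinitePlace K) + A0.card := by omega
    have hr1 : D.r + 1 ≤ Fintype.card (InfinitePlace F) + D.S.card := by
      have h1 : insert p1 (Finset.univ.image f) ⊆ Finset.univ.disjSum D.S := by
        intro p hp
        have h2 : InSF D p := by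
          rw [Finset.mem_insert] at hp
          rcases hp with rfl | hp
          · exact hp1
          · obtain ⟨a, -, rfl⟩ := Finset.mem_image.1 hp
            exact hfIn a
        rcases p with p | p
        · simp
        · rw [Finset.inr_mem_disjSum]
          exact h2
      have h2 := Finset.card_le_card h1
      rw [Finset.card_insert_of_notMem (by simpa using hp1'), himgc, Finset.card_disjSum,
        Finset.card_univ] at h2
      exact h2
    -- the places of `K`
    have hup : ∀ a : Fin D.r, ∃ u : Place K, Below (D.w a) u ∧ Below u (f a) ∧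
        ∀ x : K, av (D.w a) (algebraMap K H x) = av u x := by
      intro a
      obtain ⟨u, p, h1, h2, h3, h4⟩ := hAV F H G K (D.w a) (D.splits a)
      have h5 : p = f a := by
        rcases hcases a with ⟨w, hw⟩ | ⟨w, hw⟩
        · rw [hfl a w hw]
          rw [hw] at h3
          rcases p with p | p
          · exact congrArg Sum.inl h3.symm
          · exact absurd h3 (by simp [Below])
        · obtain ⟨v, k1, -, k3⟩ := hfr a w hw
          rw [k1]
          rw [hw] at h3
          rcases p with p | p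
          · exact absurd h3 (by simp [Below])
          · have k4 : Above {p} w := h3
            rw [above_singleton] at k3 k4
            congr 1
            exact HeightOneSpectrum.ext (by rw [← k3, ← k4])
      rw [h5] at h2
      exact ⟨u, h1, h2, h4⟩
    choose u hu1 hu2 hu3 using hup
    have huz : ∀ a, ∃ z : K, av (u a) (τ z) ≠ av (u a) z := by
      intro a
      by_contra hcon
      push Not at hcon
      rcases hcases a with ⟨w, hw⟩ | ⟨w, hw⟩
      · have h1 := hu1 a
        rw [hw] at h1
        rcases hua : u a with u' | u'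
        · rw [hua] at h1 hcon
          have h2 : w.comap (algebraMap K H) = u' := h1
          refine (hIw F H G K τ χ hd w).1 (fun γ hγ => ?_) ?_
          · rw [← hw] at hγ
            rw [D.splits a γ hγ, map_one]
          · rw [h2]
            ext z
            have h3 : u' (τ z) ^ u'.mult = u' z ^ u'.mult := hcon z
            exact (pow_left_inj₀ (apply_nonneg u' _) (apply_nonneg u' _) u'.mult_ne_zero).1 h3
        · rw [hua] at h1
          exact absurd h1 (by simp [Below])
      · have h1 := hu1 a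
        rw [hw] at h1
        rcases hua : u a with u' | u'
        · rw [hua] at h1
          exact absurd h1 (by simp [Below])
        · rw [hua] at hcon
          obtain ⟨v, k1, -, k3⟩ := hfr a w hw
          have hl : loc K v = 1 := by
            refine (hFw F H G K τ χ hd v w k3).1 fun γ hγ => ?_
            rw [← hw] at hγ
            rw [D.splits a γ hγ, map_one]
          obtain ⟨P1, P2, hne, k4, k5, -⟩ := (hLoc F K τ hd.quad v).1 hl
          have h2 := hu2 a
          rw [k1, hua] at h2
          have h3 : Above {v} u' := h2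
          exact Pool.Agent.K3h72.E2.no_split hne k5 ((k4 u').1 h3) fun x =>
            av_mem u' (by
              have h4 := hcon (x : K)
              rw [← h4]
              rfl)
    have huA : ∀ a w, u a = Sum.inr w → w ∈ A0 := by
      intro a w hw
      have h1 := hu2 a
      have h2 := hfIn a
      rw [hw] at h1
      rcases hfa : f a with v | v
      · rw [hfa] at h1
        exact absurd h1 (by simp [Below])
      · rw [hfa] at h1 h2
        exact (hA0 w).2 ⟨v, h2, h1⟩
    obtain ⟨q, a0, hq, hqx⟩ := hMinus F K τ hd.quad D.S A0 hA0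
      (fun v hv => squarefree_mid _ (D.unramified v hv)) D.r u f hu2 hfi huz huA hrc hr1
      (D.L χ) (D.analytic χ) heuler
    -- the map from `K^*` to `H^*`
    let j : Kˣ →* Hˣ := Units.map (algebraMap K H : K →* H)
    have hj : Function.Injective j := Pool.Agent.K3h3.E2.inj
    obtain ⟨hK1, hK2⟩ := hKH F H G K τ χ hd D A0 hA0
    have hK1' : (SU K A0 ⊓ minus τ).map j = part (D.U ∅) χ := hK1
    have hK2' : (mu K ⊓ minus τ).map j = part (mu H) χ := hK2
    have hsq2 : ((part (D.U ∅) χ).map (powMonoidHom 2)).relIndex (part (D.U ∅) χ) =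
        2 ^ (D.r + 1) := by
      rw [← hK1', Subgroup.map_map]
      have h1 : (powMonoidHom 2 : Hˣ →* Hˣ).comp j = j.comp (powMonoidHom 2) := by
        ext x
        simp
      rw [h1, ← Subgroup.map_map, Subgroup.relIndex_map_map_of_injective _ _ hj,
        hRank F K τ hd.quad D.S A0 hA0 D.r hrc]
    obtain ⟨x, hx1, hx2⟩ := hBa F H G D χ hG T hT D.r hsq2
    obtain ⟨b, hb1, hb2⟩ := hTP F H G D χ hG T hT.1 D.r hsq2
    have hxU : ∀ c, x c ∈ part (D.U ∅) χ := by
      intro c
      have h1 : x c ∈ part (D.U T) χ := by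
        rw [← hx1]
        exact Subgroup.subset_closure ⟨c, rfl⟩
      obtain ⟨⟨h2, -⟩, h3, h4⟩ := h1
      refine ⟨⟨h2, fun w hw => ?_⟩, h3, h4⟩
      obtain ⟨v', hv', -⟩ := hw
      simp at hv'
    have hxy : ∀ c, ∃ y : Kˣ, y ∈ SU K A0 ⊓ minus τ ∧ j y = x c := by
      intro c
      have h1 := hxU c
      rw [← hK1'] at h1
      exact Subgroup.mem_map.1 h1
    choose y hyS hyx using hxy
    have hrange : (Subgroup.closure (Set.range y) ⊔ (mu K ⊓ minus τ)).map j =
        Subgroup.closure (Set.range x) ⊔ part (mu H) χ := by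
      rw [Subgroup.map_sup, hK2', MonoidHom.map_closure, ← Set.range_comp]
      congr 2
      congr 1
      funext c
      exact hyx c
    have hindex : (Subgroup.closure (Set.range y) ⊔ (mu K ⊓ minus τ)).relIndex
        (SU K A0 ⊓ minus τ) * Nat.card (mu K ⊓ minus τ : Subgroup Kˣ) =
          (part (D.U T) χ).relIndex (part (D.U ∅) χ) := by
      rw [← hx2, ← hrange, ← hK1', ← hK2', Subgroup.relIndex_map_map_of_injective _ _ hj]
      congr 1
      exact (Subgroup.card_map_of_injective hj).symm
    obtain ⟨b', hb'⟩ := hb2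
    obtain ⟨c, hc⟩ := hdvd
    -- the product over `T`
    have hprod : ((part (D.U T) χ).relIndex (part (D.U ∅) χ) : ℝ) *
        (b : ℝ) = ∏ v ∈ T, ((Ideal.absNorm v.asIdeal : ℝ) -
          ((sgn χ (D.σ v) : ℤ) : ℝ)) := by
      have h1 := congrArg (fun z : ℤ => (z : ℝ)) hb1
      push_cast at h1
      exact h1
    have hdet : Matrix.det (Matrix.of fun a b : Fin D.r =>
        Real.log (av (D.w a) ((x b : Hˣ) : H))) = (logM u y).det := by
      congr 1
      ext a b
      change Real.log (av (D.w a) ((x b : Hˣ) : H)) = Real.log (av (u a) ((y b : Kˣ) : K))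
      rw [← hyx b, ← hu3 a]
      rfl
    have hfin := final2 (q := q) (M := (Nat.card (mu K ⊓ minus τ : Subgroup Kˣ) : ℝ))
      (J := ((Subgroup.closure (Set.range y) ⊔ (mu K ⊓ minus τ)).relIndex
        (SU K A0 ⊓ minus τ) : ℝ)) (a := (a0 : ℝ))
      (E := 2 ^ (Fintype.card (InfinitePlace F) + D.S.card - (D.r + 1)))
      (det := (logM u y).det)
      (X := ((part (D.U T) χ).relIndex (part (D.U ∅) χ) : ℝ)) (b := (b : ℝ))
      (σ := ∏ v ∈ T, ((Ideal.absNorm v.asIdeal : ℝ) - ((sgn χ (D.σ v) : ℤ) : ℝ)))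
      (hqx y hyS) (by rw [← hindex]; push_cast; ring) hprod (by positivity) (by positivity)
      (by positivity) (by positivity)
    have hbR : (b : ℝ) * 2 ^ (Fintype.card (InfinitePlace F) + D.S.card - (D.r + 1)) =
        (Nat.card G : ℝ) * (c : ℝ) * b' := by
      have h1 : b * 2 ^ (Fintype.card (InfinitePlace F) + D.S.card - (D.r + 1)) =
          Nat.card G * c * b' := by
        rw [hb', ← hc, pow_add]
        ring
      exact_mod_cast h1
    rcases hfin with h | h
    · refine ⟨x, q, a0 * c * b', hx1, hq, ?_⟩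
      rw [h, hdet]
      push_cast
      linear_combination (a0 : ℝ) * (logM u y).det * hbR
    · refine ⟨x, q, -(a0 * c * b' : ℤ), hx1, hq, ?_⟩
      rw [h, hdet]
      push_cast
      linear_combination -(a0 : ℝ) * (logM u y).det * hbR

end Pool.Agent.K3h56.E2
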