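import Pool.Agent.K3h56.E2.Chi
import Pool.Agent.K3h25.E2.Loc
import Pool.Agent.K3h93.E2.ZProd
import Pool.Agent.K3h66.E2.Lim
import Pool.Agent.K3h95.E2.REG12
import Pool.Agent.K3h41.E2.Dict
import Pool.Agent.K3h72.E2.Frob
import Pool.Agent.K3h72.E2.Finw
import Pool.Agent.K3h50.E2.Inf
import Pool.Agent.K3h15.E2.Mult
import Pool.Agent.K3h17.E2.Punit
import Pool.Agent.K3h17.E2.Block
import Pool.Agent.K3h62.E2.Asm
import Pool.Agent.K3h51.E2.Zeta0
import Pool.Agent.K3h36.E2.REG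
import Pool.Agent.K3h73.E2.Places
import Pool.Agent.K3h33.E2.One

/-! Stark's conjecture over `ℚ` for groups of exponent two. -/

set_option autoImplicit false

open NumberField IsDedekindDomain Filter Topology

noncomputable section

namespace Pool.Agent.K3h56.E2

open Pool.Agent.K3h30.RS

theorem stark0 (hZ : S_ZETA0) (hReg : S_REG) (hPl : S_PLACES) (hOne : S_ONE)
    {F H G : Type} [Field F] [NumberField F] [Field H] [NumberField H] [Algebra F H]
    [CommGroup G] [Finite G] [MulSemiringAction G H] [IsGaloisGroup G F H]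
    (D : RubinData F H G) (hG : ∀ γ : G, γ * γ = 1) : D.Stark ∅ := by
  refine Pool.Agent.K3h62.E2.t_ASM F H G D hG fun χ => ?_
  by_cases hχ : χ = 1
  · rw [hχ]
    exact hOne F H G D
  · exact t_CHI hZ (Pool.Agent.K3h93.E2.t_ZPROD Pool.Agent.K3h25.E2.t_LOC)
      Pool.Agent.K3h66.E2.t_LIM hReg Pool.Agent.K3h41.E2.t_DICT
      (Pool.Agent.K3h72.E2.t_FROB Pool.Agent.K3h25.E2.t_LOC)
      (Pool.Agent.K3h72.E2.t_FINW Pool.Agent.K3h25.E2.t_LOC) Pool.Agent.K3h50.E2.t_INFW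
      Pool.Agent.K3h50.E2.t_COUNT Pool.Agent.K3h15.E2.t_MULT Pool.Agent.K3h17.E2.t_PUNIT
      hPl Pool.Agent.K3h17.E2.t_BLOCK F H G D hG χ hχ

/-- Stark's conjecture over `ℚ` for groups of exponent two -/
theorem stark {F H G : Type} [Field F] [NumberField F] [Field H] [NumberField H] [Algebra F H]
    [CommGroup G] [Finite G] [MulSemiringAction G H] [IsGaloisGroup G F H]
    (D : RubinData F H G) (hG : ∀ γ : G, γ * γ = 1) : D.Stark ∅ :=
  stark0 Pool.Agent.K3h51.E2.t_ZETA0 Pool.Agent.K3h36.E2.t_REG Pool.Agent.K3h73.E2.t_PLACES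
    (Pool.Agent.K3h33.E2.t_ONE Pool.Agent.K3h51.E2.t_ZETA0 Pool.Agent.K3h66.E2.t_LIM1
      Pool.Agent.K3h95.E2.t_REG1 Pool.Agent.K3h95.E2.t_REG2 Pool.Agent.K3h15.E2.t_MULT
      Pool.Agent.K3h17.E2.t_PUNIT Pool.Agent.K3h73.E2.t_PLACES Pool.Agent.K3h17.E2.t_BLOCK)
    D hG

end Pool.Agent.K3h56.E2
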