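import Pool.Agent.K3h56.E2.Fin
import Pool.Agent.K3h56.E2.Chi2
import Pool.Agent.K3h51.E2.Zeta0X
import Pool.Agent.K3h11.E2.LimX
import Pool.Agent.K3h66.E2.LimX
import Pool.Agent.K3h23.E2.Gt
import Pool.Agent.K3h92.E2.Cls
import Pool.Agent.K3h17.E2.Rank
import Pool.Agent.K3h77.E2.Minus
import Pool.Agent.K3h57.E2.Tpart
import Pool.Agent.K3h60.E2.Basis
import Pool.Agent.K3h55.E2.Asm2
import Pool.Agent.K3h35.E2.One2
import Pool.Agent.K3h64.E2.VAL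
import Pool.Agent.K3h13.E2.DetIdx
import Pool.Agent.K3h4.E2.Fund
import Pool.Agent.K3h40.E2.Sind

/-! Rubin's conjecture for groups of exponent two, explicit form. -/

set_option autoImplicit false

open NumberField IsDedekindDomain Filter Topology

noncomputable section

namespace Pool.Agent.K3h56.E2

open Pool.Agent.K3h30.RS

theorem t_SIND : S_SIND :=
  Pool.Agent.K3h40.E2.t_SIND Pool.Agent.K3h64.E2.t_VAL Pool.Agent.K3h13.E2.t_DETIDX

theorem t_ZPROD : S_ZPROD := Pool.Agent.K3h93.E2.t_ZPROD Pool.Agent.K3h25.E2.t_LOC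

theorem t_MINUS : S_MINUS :=
  Pool.Agent.K3h77.E2.t_MINUS Pool.Agent.K3h51.E2.t_ZETA0X t_ZPROD Pool.Agent.K3h25.E2.t_LOC
    Pool.Agent.K3h11.E2.t_LIMX t_SIND (Pool.Agent.K3h4.E2.t_FUND Pool.Agent.K3h64.E2.t_VAL)
    Pool.Agent.K3h36.E2x.t_FACT Pool.Agent.K3h23.E2.t_GT Pool.Agent.K3h17.E2.t_RANK
    Pool.Agent.K3h92.E2.t_CLS

/-- Rubin's conjecture for groups of exponent two, explicit form -/
theorem rubin {F H G : Type} [Field F] [NumberField F] [Field H] [NumberField H] [Algebra F H]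
    [CommGroup G] [Finite G] [MulSemiringAction G H] [IsGaloisGroup G F H]
    (D : RubinData F H G) (hG : ∀ γ : G, γ * γ = 1) (T : Finset (HeightOneSpectrum (𝓞 F)))
    (hT : D.Allowed T) (h : Nat.card G ∣ 2 ^ ((Fintype.card (InfinitePlace F) + D.S.card -
      (D.r + 1)) + (oddCard T - (D.r + 1)))) : D.Rubin T := by
  refine Pool.Agent.K3h55.E2.t_ASM2 F H G D T hT hG fun χ => ?_
  by_cases hχ : χ = 1
  · rw [hχ]
    exact Pool.Agent.K3h35.E2.t_ONE2 Pool.Agent.K3h51.E2.t_ZETA0X Pool.Agent.K3h66.E2.t_LIM1X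
      t_SIND Pool.Agent.K3h57.E2.t_TPART Pool.Agent.K3h60.E2.t_BASIS Pool.Agent.K3h17.E2.t_RANK1
      Pool.Agent.K3h3.E2.t_KH1 Pool.Agent.K3h3.E2.t_AVK Pool.Agent.K3h73.E2.t_PLACES
      F H G D T hT hG h
  · exact t_CHI2 Pool.Agent.K3h51.E2.t_ZETA0X t_ZPROD Pool.Agent.K3h25.E2.t_LOC
      Pool.Agent.K3h11.E2.t_LIMX Pool.Agent.K3h41.E2.t_DICT
      (Pool.Agent.K3h72.E2.t_FROB Pool.Agent.K3h25.E2.t_LOC)
      (Pool.Agent.K3h72.E2.t_FINW Pool.Agent.K3h25.E2.t_LOC) Pool.Agent.K3h50.E2.t_INFW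
      Pool.Agent.K3h50.E2.t_COUNT Pool.Agent.K3h73.E2.t_PLACES t_MINUS
      Pool.Agent.K3h17.E2.t_RANK Pool.Agent.K3h3.E2.t_KH Pool.Agent.K3h3.E2.t_AVK
      Pool.Agent.K3h60.E2.t_BASIS Pool.Agent.K3h57.E2.t_TPART F H G D T hT hG h χ hχ

end Pool.Agent.K3h56.E2
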