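import Pool.Agent.K3h56.E2.Stm2

/-!
# Rubin's conjecture for groups of exponent two, explicit form: parts of the index theorem
-/

set_option autoImplicit false

open NumberField IsDedekindDomain Filter Topology

noncomputable section

namespace Pool.Agent.K3h56.E2

open Pool.Agent.K3h30.RS

/-- VAL. The orders at the prime ideals in `A` of the `A`-units. -/
def S_VAL : Prop :=
  ∀ (K : Type) [Field K] [NumberField K] (A : Finset (HeightOneSpectrum (𝓞 K))),
    ∃ ord : Kˣ →* Multiplicative (A → ℤ),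
      (∀ (x : Kˣ) (P : A), Real.log (av (Sum.inr P.1) (x : K)) =
        -((Multiplicative.toAdd (ord x) P : ℤ) : ℝ) * Real.log (Ideal.absNorm P.1.asIdeal)) ∧
      ((SU K A).map ord).index = Nat.card (CA (A : Set (HeightOneSpectrum (𝓞 K)))) ∧
      (∀ x ∈ SU K A, ord x = 1 ↔ ∃ ε : (𝓞 K)ˣ, (x : K) = ((ε : 𝓞 K) : K))

/-- DETIDX. Determinants and indices. -/
def S_DETIDX : Prop :=
  ∀ (M : Type) [CommGroup M] (ι : Type) [Fintype ι] [DecidableEq ι]
    (Λ : M →* Multiplicative (ι → ℝ)) (V μ : Subgroup M), μ ≤ V → (∀ z ∈ μ, Λ z = 1) →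
    ∀ e x : ι → M, Subgroup.closure (Set.range e) ⊔ μ = V → (∀ b, x b ∈ V) →
    (Matrix.of fun a b : ι => Multiplicative.toAdd (Λ (e b)) a).det ≠ 0 →
    |(Matrix.of fun a b : ι => Multiplicative.toAdd (Λ (x b)) a).det| =
      ((Subgroup.closure (Set.range x) ⊔ μ).relIndex V : ℝ) *
        |(Matrix.of fun a b : ι => Multiplicative.toAdd (Λ (e b)) a).det|

end Pool.Agent.K3h56.E2
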